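import Pool.Agent.X17.MD.Falls

/-! # Missing digits -/

set_option autoImplicit false

namespace Pool.Agent.X17.MD

open Finset Polynomial Pool.Agent.Y927.CP

lemma mod_pow_eq (b n : ℕ) : ∀ L : ℕ, ∑ j ∈ range L, (n / b ^ j % b) * b ^ j = n % b ^ L := by
  intro L
  induction L with
  | zero => simp [Nat.mod_one]
  | succ L ih => rw [Finset.sum_range_succ, ih, Nat.mod_pow_succ, mul_comm]

/-- the uniform law on the digits in `D` -/
noncomputable def unif (b : ℕ) (D : Finset ℕ) (L : ℕ) : Fin L → Fin b → ℝ :=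
  fun _ x => if (x : ℕ) ∈ D then 1 / (D.card : ℝ) else 0

lemma unif_law {b : ℕ} {D : Finset ℕ} (hD : ∀ x ∈ D, x < b) {x y : ℕ} (hx : x ∈ D) (hy : y ∈ D) (hxy : x < y)
    (L : ℕ) : Law b (y - x) (1 / (D.card : ℝ)) (unif b D L) := by
  have hc : 0 < D.card := Finset.card_pos.2 ⟨x, hx⟩
  have hc0 : (0 : ℝ) < D.card := by exact_mod_cast hc
  refine ⟨fun j z => ?_, fun j => ?_, fun j => ⟨⟨x, hD x hx⟩, ⟨y, hD y hy⟩, ?_, ?_, ?_⟩⟩
  · unfold unif; split_ifs <;> positivity
  · unfold unif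
    rw [← Finset.sum_filter, Finset.sum_const, nsmul_eq_mul]
    have : (univ.filter (fun z : Fin b => (z : ℕ) ∈ D)).card = D.card := by
      apply Finset.card_nbij (fun z : Fin b => (z : ℕ))
      · intro z hz; exact (Finset.mem_filter.1 hz).2
      · intro z _ z' _ h; exact Fin.ext h
      · intro z hz; exact ⟨⟨z, hD z hz⟩, by simpa using hz, rfl⟩
    rw [this]; field_simp
  · simp only; omega
  · unfold unif; rw [if_pos hx]
  · unfold unif; rw [if_pos hy]

theorem count_le {b : ℕ} (hb : 0 < b) (D : Finset ℕ) (hD : ∀ x ∈ D, x < b) (hD0 : D.Nonempty) (L : ℕ) (P : ℕ → Prop) :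
    ({n : ℕ | n < b ^ L ∧ (∀ j < L, n / b ^ j % b ∈ D) ∧ P n}.ncard : ℝ) ≤
      (D.card : ℝ) ^ L * prob (unif b D L) P := by
  classical
  have hc0 : (0 : ℝ) < D.card := by exact_mod_cast Finset.card_pos.2 hD0
  set S := (univ : Finset (Fin L → Fin b)).filter (fun d => (∀ j, (d j : ℕ) ∈ D) ∧ P (num b d)) with hS
  have hfin : {n : ℕ | n < b ^ L ∧ (∀ j < L, n / b ^ j % b ∈ D) ∧ P n}.Finite :=
    (Set.finite_lt_nat (b ^ L)).subset fun n hn => hn.1
  have hnum : ∀ n : ℕ, n < b ^ L → num b (fun j : Fin L => (⟨n / b ^ (j : ℕ) % b, Nat.mod_lt _ hb⟩ : Fin b)) = n := by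
    intro n hn
    unfold num
    simp only
    rw [Fin.sum_univ_eq_sum_range (fun j => (n / b ^ j % b) * b ^ j) L, mod_pow_eq, Nat.mod_eq_of_lt hn]
  have h1 : {n : ℕ | n < b ^ L ∧ (∀ j < L, n / b ^ j % b ∈ D) ∧ P n}.ncard ≤ S.card := by
    rw [Set.ncard_eq_toFinset_card _ hfin]
    apply Finset.card_le_card_of_injOn
      (fun n => (fun j : Fin L => (⟨n / b ^ (j : ℕ) % b, Nat.mod_lt _ hb⟩ : Fin b)))
    · intro n hn
      rw [Finset.mem_coe, Set.Finite.mem_toFinset] at hn
      rw [Finset.mem_coe, hS, mem_filter]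
      refine ⟨mem_univ _, fun j => hn.2.1 j j.2, ?_⟩
      rw [hnum n hn.1]; exact hn.2.2
    · intro n hn n' hn' h
      rw [Finset.mem_coe, Set.Finite.mem_toFinset] at hn hn'
      have := congrArg (num b) h
      rwa [hnum n hn.1, hnum n' hn'.1] at this
  have h2 : (S.card : ℝ) * (1 / (D.card : ℝ)) ^ L ≤ prob (unif b D L) P := by
    rw [prob_eq P ((univ : Finset (Fin L → Fin b)).filter (fun d => P (num b d))) (fun d => by simp)]
    calc (S.card : ℝ) * (1 / (D.card : ℝ)) ^ L = ∑ d ∈ S, wt (unif b D L) d := by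
          rw [← nsmul_eq_mul, ← Finset.sum_const]
          apply Finset.sum_congr rfl
          intro d hd
          rw [hS, mem_filter] at hd
          unfold wt unif
          rw [Finset.prod_congr rfl (fun j _ => if_pos (hd.2.1 j)), Finset.prod_const, card_univ, Fintype.card_fin]
      _ ≤ _ := by
          apply Finset.sum_le_sum_of_subset_of_nonneg
          · intro d hd
            rw [hS, mem_filter] at hd
            rw [mem_filter]; exact ⟨hd.1, hd.2.2⟩
          · intro d _ _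
            apply wt_nonneg
            intro j x
            unfold unif; split_ifs <;> positivity
  have h3 : (S.card : ℝ) ≤ (D.card : ℝ) ^ L * prob (unif b D L) P := by
    have := mul_le_mul_of_nonneg_left h2 (show (0 : ℝ) ≤ (D.card : ℝ) ^ L by positivity)
    refine le_trans (le_of_eq ?_) this
    rw [one_div, inv_pow]
    field_simp
  exact le_trans (by exact_mod_cast h1) h3

lemma exp_to_pow {m : ℕ} (hm : 2 ≤ m) {δ C : ℝ} (L : ℕ) :
    (m : ℝ) ^ L * (C * Real.exp (-(δ * L))) = C * (m : ℝ) ^ ((1 - δ / Real.log m) * L) := by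
  have hm0 : (1 : ℝ) < m := by exact_mod_cast (by omega : 1 < m)
  have hl : 0 < Real.log m := Real.log_pos hm0
  have e : (m : ℝ) ^ ((1 - δ / Real.log m) * L) = (m : ℝ) ^ L * Real.exp (-(δ * L)) := by
    rw [Real.rpow_def_of_pos (by linarith), ← Real.rpow_natCast, Real.rpow_def_of_pos (by linarith), ← Real.exp_add]
    congr 1
    field_simp
    ring
  rw [e]; ring

/-- two elements of different parity -/
lemma exists_pair {D : Finset ℕ} (he : ∃ x ∈ D, x % 2 = 0) (ho : ∃ x ∈ D, x % 2 = 1) :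
    2 ≤ D.card ∧ ∃ x y, x ∈ D ∧ y ∈ D ∧ x < y ∧ (y - x) % 2 = 1 := by
  obtain ⟨x, hx, hx2⟩ := he
  obtain ⟨y, hy, hy2⟩ := ho
  have hne : x ≠ y := by intro h; rw [h] at hx2; omega
  refine ⟨?_, ?_⟩
  · have : ({x, y} : Finset ℕ) ⊆ D := by
      intro z hz
      rw [Finset.mem_insert, Finset.mem_singleton] at hz
      rcases hz with rfl | rfl <;> assumption
    have h1 := Finset.card_le_card this
    rwa [Finset.card_pair hne] at h1
  · rcases lt_or_gt_of_ne hne with h | h
    · exact ⟨x, y, hx, hy, h, by omega⟩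
    · exact ⟨y, x, hy, hx, h, by omega⟩

end Pool.Agent.X17.MD
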