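import Pool.Agent.X17.MD.Main

/-! # Small terms of the orbits -/

set_option autoImplicit false

namespace Pool.Agent.X17.MD

open Finset Polynomial Pool.Agent.Y927.CP

/-- the Collatz orbit of `f n` has a term at most `(f n) ^ s` -/
def Falls (f : ℤ[X]) (s : ℝ) (n : ℕ) : Prop :=
  0 < f.eval (n : ℤ) ∧ ∃ k : ℕ, (Col^[k] (f.eval (n : ℤ)).toNat : ℝ) ≤ ((f.eval (n : ℤ) : ℤ) : ℝ) ^ s

lemma q_lt : (3 : ℝ) ^ (1 / 16 : ℝ) * (√3 / 2) < 1 := by
  have h1 : (3 : ℝ) ^ (1 / 16 : ℝ) * √3 = 3 ^ (9 / 16 : ℝ) := by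
    rw [Real.sqrt_eq_rpow, ← Real.rpow_add (by norm_num)]; norm_num
  have h2 : (3 : ℝ) ^ (9 / 16 : ℝ) < 2 := by
    have h3 : ((3 : ℝ) ^ (9 / 16 : ℝ)) ^ (16 : ℕ) < 2 ^ (16 : ℕ) := by
      rw [← Real.rpow_natCast, ← Real.rpow_mul (by norm_num)]
      have : (9 / 16 : ℝ) * ((16 : ℕ) : ℝ) = ((9 : ℕ) : ℝ) := by norm_num
      rw [this, Real.rpow_natCast]
      norm_num
    exact lt_of_pow_lt_pow_left₀ 16 (by norm_num) h3
  calc (3 : ℝ) ^ (1 / 16 : ℝ) * (√3 / 2) = (3 ^ (1 / 16 : ℝ) * √3) / 2 := by ring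
    _ = 3 ^ (9 / 16 : ℝ) / 2 := by rw [h1]
    _ < 1 := by linarith

lemma num_lt {b L : ℕ} (hb : 0 < b) (d : Fin L → Fin b) : num b d < b ^ L := by
  induction L with
  | zero => simp [num]
  | succ L ih =>
    unfold num
    rw [Fin.sum_univ_castSucc]
    have h1 := ih (fun j => d j.castSucc)
    unfold num at h1
    beta_reduce at h1
    have h2 : (d (Fin.last L) : ℕ) + 1 ≤ b := (d (Fin.last L)).2
    have h3 := Nat.mul_le_mul_right (b ^ L) h2
    rw [Nat.add_mul, one_mul] at h3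
    have h4 : b ^ (L + 1) = b * b ^ L := by rw [pow_succ']
    rw [h4]
    simp only [Fin.val_castSucc, Fin.val_last]
    omega

theorem falls_est {f : ℤ[X]} (hd : 1 ≤ f.natDegree) (hlc : 0 < f.leadingCoeff) {b : ℕ} (hbo : b % 2 = 1)
    (hb3 : 3 ≤ b) {c : ℝ} (hc : 0 < c) (hc1 : c ≤ 1) :
    ∃ κ δ C : ℝ, 0 < κ ∧ 0 < δ ∧ 0 < C ∧ ∀ (L Δ : ℕ) (ν : Fin L → Fin b → ℝ), Δ % 2 = 1 →
      Law b Δ c ν → prob ν (fun n => ¬ Falls f (1 - κ) n) ≤ C * Real.exp (-(δ * L)) := by
  classical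
  obtain ⟨r, δ, C, hr, hδ, hC, h⟩ := main_est hd hlc hbo hb3 hc hc1 (ε := 1 / 16) (by norm_num) (by norm_num)
  obtain ⟨G0, hG01, hG0⟩ := growth f
  obtain ⟨G, hGd⟩ : ∃ G : ℝ, G = G0 + |((f.eval (0 : ℤ) : ℤ) : ℝ)| := ⟨_, rfl⟩
  have hab : 0 ≤ |((f.eval (0 : ℤ) : ℤ) : ℝ)| := abs_nonneg _
  have hG1 : 1 ≤ G := by rw [hGd]; linarith
  set q : ℝ := (3 : ℝ) ^ (1 / 16 : ℝ) * (√3 / 2) with hq
  have hq0 : 0 < q := by positivity
  have hq1 : q < 1 := q_lt
  have hlq : 0 < Real.log (1 / q) := Real.log_pos (by rw [lt_div_iff₀ hq0]; linarith)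
  have hbR : (3 : ℝ) ≤ b := by exact_mod_cast hb3
  have hlb : 0 < Real.log b := Real.log_pos (by linarith)
  have hr0 : (0 : ℝ) < r := by exact_mod_cast (by omega : 0 < r)
  have hd0 : (0 : ℝ) < f.natDegree := by exact_mod_cast (by omega : 0 < f.natDegree)
  set κ : ℝ := Real.log (1 / q) / (2 * r * f.natDegree * Real.log b) with hκ
  have hκ0 : 0 < κ := by positivity
  -- large `L`
  obtain ⟨L2, hL2⟩ : ∃ L2 : ℕ, ∀ L : ℕ, L2 ≤ L →
      Real.log 2 + Real.log (1 / q) + κ * Real.log G ≤ Real.log (1 / q) / (2 * r) * L := by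
    obtain ⟨M, hM⟩ := exists_nat_ge ((Real.log 2 + Real.log (1 / q) + κ * Real.log G) / (Real.log (1 / q) / (2 * r)))
    refine ⟨M, fun L hL => ?_⟩
    rw [div_le_iff₀ (by positivity)] at hM
    have : (M : ℝ) ≤ L := by exact_mod_cast hL
    have h2 : (M : ℝ) * (Real.log (1 / q) / (2 * r)) ≤ L * (Real.log (1 / q) / (2 * r)) :=
      mul_le_mul_of_nonneg_right this (by positivity)
    linarith
  refine ⟨κ, δ, Real.exp (δ * L2) + C, hκ0, hδ, by positivity, fun L Δ ν hΔ hlaw => ?_⟩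
  by_cases hL : L < L2
  · have h1 := prob_le_one hlaw.nonneg hlaw.one (fun n => ¬ Falls f (1 - κ) n)
    have h2 : (1 : ℝ) ≤ Real.exp (δ * L2) * Real.exp (-(δ * L)) := by
      rw [← Real.exp_add]
      apply Real.one_le_exp
      have : (L : ℝ) ≤ L2 := by exact_mod_cast hL.le
      nlinarith
    have h3 : 0 ≤ C * Real.exp (-(δ * L)) := by positivity
    linarith
  push Not at hL
  have hL3 := hL2 L hL
  obtain ⟨k, hk⟩ : ∃ k, L / r = k := ⟨_, rfl⟩
  have hkl : (L : ℝ) / r ≤ k + 1 := by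
    rw [div_le_iff₀ hr0]
    have : L < (k + 1) * r := by
      rw [← hk, Nat.add_mul, one_mul]
      exact Nat.lt_div_mul_add (by omega)
    have h5 : (L : ℝ) < ((k + 1 : ℕ) : ℝ) * r := by exact_mod_cast this
    push_cast at h5
    exact h5.le
  have hpt : ∀ d : Fin L → Fin b, Follows f (1 / 16) (L / r) (num b d) → Falls f (1 - κ) (num b d) := by
    intro d hF
    rw [hk] at hF
    obtain ⟨hpos, hF⟩ := hF
    refine ⟨hpos, ?_⟩
    obtain ⟨o, ho⟩ := iter_T k (f.eval ((num b d : ℕ) : ℤ)).toNat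
    refine ⟨o, ?_⟩
    rw [← ho]
    obtain ⟨-, h2⟩ := hF k le_rfl
    obtain ⟨y, hy⟩ : ∃ y : ℝ, ((f.eval ((num b d : ℕ) : ℤ) : ℤ) : ℝ) = y := ⟨_, rfl⟩
    rw [hy] at h2 ⊢
    have hy1 : 1 ≤ y := by rw [← hy]; exact_mod_cast hpos
    have hy0 : 0 < y := by linarith
    refine h2.trans ?_
    have e1 : 2 * (3 : ℝ) ^ (1 / 16 * (k : ℝ)) * (√3 / 2) ^ k * y = 2 * q ^ k * y := by
      rw [hq, mul_pow, Real.rpow_mul (by norm_num), Real.rpow_natCast]; ring
    rw [e1, Real.rpow_sub hy0, Real.rpow_one, le_div_iff₀ (Real.rpow_pos_of_pos hy0 _)]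
    have e2 : 2 * q ^ k * y ^ κ ≤ 1 := by
        have h3 : y ≤ G * (b : ℝ) ^ (L * f.natDegree) := by
          by_cases hn : 1 ≤ num b d
          · rw [← hy]
            refine (hG0 _ hn).trans ?_
            apply mul_le_mul (by rw [hGd]; linarith) _ (by positivity) (by linarith)
            have : (num b d : ℝ) ≤ (b : ℝ) ^ L := by exact_mod_cast (num_lt (by omega) d).le
            rw [pow_mul]
            exact pow_le_pow_left₀ (Nat.cast_nonneg _) this _
          · have h0 : num b d = 0 := by omega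
            rw [h0] at hy
            have h1 : y ≤ |((f.eval (0 : ℤ) : ℤ) : ℝ)| := by
              rw [← hy]; simp only [Nat.cast_zero]; exact le_abs_self _
            have h2 : (1 : ℝ) ≤ (b : ℝ) ^ (L * f.natDegree) := one_le_pow₀ (by linarith)
            have h3 : G * 1 ≤ G * (b : ℝ) ^ (L * f.natDegree) :=
              mul_le_mul_of_nonneg_left h2 (by linarith)
            linarith
        have h4 : Real.log y ≤ Real.log G + L * f.natDegree * Real.log b := by
          have h5 := Real.log_le_log hy0 h3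
          rw [Real.log_mul (by linarith) (by positivity), Real.log_pow] at h5
          push_cast at h5
          exact h5
        rw [← Real.exp_log (show 0 < 2 * q ^ k * y ^ κ by positivity)]
        apply Real.exp_le_one_iff.2
        rw [Real.log_mul (by positivity) (by positivity), Real.log_mul (by norm_num) (by positivity),
          Real.log_pow, Real.log_rpow hy0]
        have h6 : Real.log q = -Real.log (1 / q) := by rw [one_div, Real.log_inv]; ring
        rw [h6]
        have h7 : κ * Real.log y ≤ κ * Real.log G + Real.log (1 / q) / (2 * r) * L := by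
          have h8 := mul_le_mul_of_nonneg_left h4 hκ0.le
          have h9 : κ * (L * f.natDegree * Real.log b) = Real.log (1 / q) / (2 * r) * L := by
            rw [hκ]; field_simp
          linarith
        have h10 : Real.log (1 / q) / r * L ≤ (k + 1) * Real.log (1 / q) := by
          have := mul_le_mul_of_nonneg_right hkl hlq.le
          calc Real.log (1 / q) / r * L = L / r * Real.log (1 / q) := by ring
            _ ≤ _ := this
        have h11 : Real.log (1 / q) / r * L = 2 * (Real.log (1 / q) / (2 * r) * L) := by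
          field_simp
        linarith
    calc 2 * q ^ k * y * y ^ κ = (2 * q ^ k * y ^ κ) * y := by ring
      _ ≤ 1 * y := mul_le_mul_of_nonneg_right e2 hy0.le
      _ = y := one_mul y
  have h1 := h L Δ ν hΔ hlaw
  have h2 : prob ν (fun n => ¬ Falls f (1 - κ) n) ≤ prob ν (fun n => ¬ Follows f (1 / 16) (L / r) n) := by
    rw [prob_eq (fun n => ¬ Falls f (1 - κ) n)
      ((univ : Finset (Fin L → Fin b)).filter (fun d => ¬ Falls f (1 - κ) (num b d))) (fun d => by simp),
      prob_eq (fun n => ¬ Follows f (1 / 16) (L / r) n)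
      ((univ : Finset (Fin L → Fin b)).filter (fun d => ¬ Follows f (1 / 16) (L / r) (num b d))) (fun d => by simp)]
    apply Finset.sum_le_sum_of_subset_of_nonneg
    · intro d hd
      rw [mem_filter] at hd ⊢
      exact ⟨hd.1, fun hF => hd.2 (hpt d hF)⟩
    · intro d _ _; exact wt_nonneg hlaw.nonneg d
  have h3 : 0 ≤ Real.exp (δ * L2) * Real.exp (-(δ * L)) := by positivity
  linarith

end Pool.Agent.X17.MD
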