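import Pool.Agent.X17.MD.Four
import Pool.Agent.Y927.CP.F

/-! # The classes modulo `2 ^ k` of the arguments of a polynomial with unbalanced parities -/

set_option autoImplicit false

namespace Pool.Agent.X17.MD

open Finset Polynomial Pool.Agent.Y927.CP

/-- congruent numbers have the same parities -/
theorem par_of_mod (k : ℕ) : ∀ x y : ℕ, x ≡ y [MOD 2 ^ k] → ∀ i < k, T^[i] x % 2 = T^[i] y % 2 := by
  induction k with
  | zero => intro x y _ i hi; omega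
  | succ k ih =>
    intro x y h i hi
    have h0 : x % 2 = y % 2 := by
      have : x ≡ y [MOD 2] := h.of_dvd (dvd_pow_self 2 (by omega))
      exact this
    cases i with
    | zero => exact h0
    | succ i =>
      rw [Function.iterate_succ_apply, Function.iterate_succ_apply]
      apply ih _ _ _ i (by omega)
      have h2 : 2 * T x ≡ 2 * T y [MOD 2 * 2 ^ k] := by
        rw [← pow_succ']
        rcases Nat.mod_two_eq_zero_or_one x with hx | hx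
        · rw [T_even hx, T_even (h0 ▸ hx)]; exact h
        · rw [T_odd hx, T_odd (h0 ▸ hx)]
          exact (h.mul_left 3).add_right 1
      exact Nat.ModEq.mul_left_cancel' (by norm_num) h2

theorem pv_congr {k x y : ℕ} (h : x ≡ y [MOD 2 ^ k]) : pv k x = pv k y := by
  funext i
  unfold pv
  rw [par_of_mod k x y h i i.2]

lemma sqrt3_pow (j : ℕ) : (√3 / 2 : ℝ) ^ j * 2 ^ j = (3 : ℝ) ^ ((j : ℝ) / 2) := by
  rw [div_pow, div_mul_cancel₀ _ (by positivity), Real.sqrt_eq_rpow, ← Real.rpow_natCast, ← Real.rpow_mul (by norm_num)]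
  congr 1; ring

/-- large numbers with unbalanced parities do not follow the random model -/
theorem bad_not_typ {f : ℤ[X]} {η : ℝ} {k n : ℕ}
    (hk : 2 * ((2 : ℝ) ^ k) ^ (η / 2) < 3 ^ (η * k / 2)) (hf : (2 : ℤ) ^ k ≤ f.eval (n : ℤ))
    (hb : pv k (f.eval (n : ℤ)).toNat ∈ Bad k (η * k)) : ¬ Typ f (η / 2) ((2 : ℝ) ^ k) n := by
  rintro ⟨hpos, htyp⟩
  obtain ⟨j, hj, hS⟩ := mem_Bad.1 hb
  rw [S_pv hj] at hS
  obtain ⟨h1, h2⟩ := htyp j (pow_le_pow_right₀ (by norm_num) hj)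
  obtain ⟨x, hx⟩ : ∃ x, (f.eval (n : ℤ)).toNat = x := ⟨_, rfl⟩
  have hxe : ((f.eval (n : ℤ) : ℤ) : ℝ) = x := by
    have := Int.toNat_of_nonneg hpos.le
    rw [hx] at this
    exact_mod_cast this.symm
  rw [hxe, hx] at h1 h2
  rw [hx] at hS
  have hxk : (2 : ℝ) ^ k ≤ x := by
    rw [← hxe]; exact_mod_cast hf
  have hx0 : (0 : ℝ) < x := lt_of_lt_of_le (by positivity) hxk
  have hlow : (3 : ℝ) ^ od j x * x ≤ 2 ^ j * T^[j] x := by exact_mod_cast low j x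
  have hupp : (2 : ℝ) ^ j * T^[j] x ≤ 3 ^ od j x * (x + 2 ^ j) := by exact_mod_cast upp j x
  have h2j : (0 : ℝ) < 2 ^ j := by positivity
  obtain ⟨A, hA⟩ : ∃ A, ((2 : ℝ) ^ k) ^ (η / 2) = A := ⟨_, rfl⟩
  have hA0 : 0 < A := by rw [← hA]; positivity
  have hA' : ((2 : ℝ) ^ k) ^ (-(η / 2)) = A⁻¹ := by rw [← hA, Real.rpow_neg (by positivity)]
  rw [hA] at h2 hk
  rw [hA'] at h1
  rw [← Real.rpow_natCast 3 (od j x)] at hlow hupp
  have h3j := sqrt3_pow j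
  have h30 : (0 : ℝ) < (3 : ℝ) ^ ((j : ℝ) / 2) := by positivity
  rcases lt_abs.1 hS with h | h
  · have e1 : (3 : ℝ) ^ ((od j x : ℕ) : ℝ) * x ≤ A * 3 ^ ((j : ℝ) / 2) * x := by
      calc (3 : ℝ) ^ ((od j x : ℕ) : ℝ) * x ≤ 2 ^ j * T^[j] x := hlow
        _ ≤ 2 ^ j * (A * (√3 / 2) ^ j * x) := mul_le_mul_of_nonneg_left h2 h2j.le
        _ = A * ((√3 / 2 : ℝ) ^ j * 2 ^ j) * x := by ring
        _ = A * 3 ^ ((j : ℝ) / 2) * x := by rw [h3j]
    have e2 := le_of_mul_le_mul_right e1 hx0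
    have e3 : (3 : ℝ) ^ (η * k / 2 + (j : ℝ) / 2) ≤ 3 ^ ((od j x : ℕ) : ℝ) :=
      Real.rpow_le_rpow_of_exponent_le (by norm_num) (by linarith)
    rw [Real.rpow_add (by norm_num)] at e3
    have e4 : (3 : ℝ) ^ (η * k / 2) ≤ A := le_of_mul_le_mul_right (e3.trans e2) h30
    linarith
  · have e0 : (x : ℝ) + 2 ^ j ≤ 2 * x := by
      have : (2 : ℝ) ^ j ≤ 2 ^ k := pow_le_pow_right₀ (by norm_num) hj
      linarith
    have e1 : A⁻¹ * 3 ^ ((j : ℝ) / 2) * x ≤ (2 * 3 ^ ((od j x : ℕ) : ℝ)) * x := by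
      calc A⁻¹ * 3 ^ ((j : ℝ) / 2) * x = 2 ^ j * (A⁻¹ * (√3 / 2) ^ j * x) := by rw [← h3j]; ring
        _ ≤ 2 ^ j * T^[j] x := mul_le_mul_of_nonneg_left h1 h2j.le
        _ ≤ 3 ^ ((od j x : ℕ) : ℝ) * (x + 2 ^ j) := hupp
        _ ≤ 3 ^ ((od j x : ℕ) : ℝ) * (2 * x) := mul_le_mul_of_nonneg_left e0 (by positivity)
        _ = (2 * 3 ^ ((od j x : ℕ) : ℝ)) * x := by ring
    have e2 := le_of_mul_le_mul_right e1 hx0
    have e3 : (3 : ℝ) ^ (((od j x : ℕ) : ℝ) + η * k / 2) ≤ 3 ^ ((j : ℝ) / 2) :=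
      Real.rpow_le_rpow_of_exponent_le (by norm_num) (by linarith)
    rw [Real.rpow_add (by norm_num)] at e3
    have e4 : A⁻¹ * (3 ^ ((od j x : ℕ) : ℝ) * 3 ^ (η * k / 2)) ≤ 2 * 3 ^ ((od j x : ℕ) : ℝ) :=
      (mul_le_mul_of_nonneg_left e3 (inv_nonneg.2 hA0.le)).trans e2
    have e5 : (0 : ℝ) < 3 ^ ((od j x : ℕ) : ℝ) := by positivity
    have e6 : A⁻¹ * 3 ^ (η * k / 2) ≤ 2 := by
      apply le_of_mul_le_mul_right _ e5
      linarith
    rw [inv_mul_le_iff₀ hA0] at e6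
    linarith

/-- **the classes of the arguments with unbalanced parities** -/
theorem classes {f : ℤ[X]} (hd : 1 ≤ f.natDegree) (hlc : 0 < f.leadingCoeff) {η : ℝ} (hη : 0 < η)
    (hη1 : η ≤ 1) : ∃ δ C : ℝ, 0 < δ ∧ 0 < C ∧ ∀ k : ℕ, ∃ Z : Finset (ZMod (2 ^ k)),
      (Z.card : ℝ) ≤ C * ((2 : ℝ) ^ k) ^ (1 - δ) ∧
      ∀ n : ℕ, 0 < f.eval (n : ℤ) → pv k (f.eval (n : ℤ)).toNat ∈ Bad k (η * k) → (n : ZMod (2 ^ k)) ∈ Z := by
  classical
  obtain ⟨δ, C, hδ, hδ1, hC, h⟩ := main hd hlc (ε := η / 2) (by positivity) (by linarith)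
  -- large `k`
  have hbase : (1 : ℝ) < ((3 : ℝ) / 2) ^ (η / 2) := Real.one_lt_rpow (by norm_num) (by positivity)
  obtain ⟨k0, hk0⟩ := pow_unbounded_of_one_lt 2 hbase
  refine ⟨δ, max C (2 ^ k0), hδ, lt_max_of_lt_left hC, fun k => ?_⟩
  have hpow1 : (1 : ℝ) ≤ ((2 : ℝ) ^ k) ^ (1 - δ) :=
    Real.one_le_rpow (one_le_pow₀ (by norm_num)) (by linarith)
  by_cases hkk : k < k0
  · refine ⟨univ, ?_, fun n _ _ => mem_univ _⟩
    rw [card_univ, ZMod.card]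
    push_cast
    calc (2 : ℝ) ^ k ≤ 2 ^ k0 := pow_le_pow_right₀ (by norm_num) hkk.le
      _ ≤ max C (2 ^ k0) := le_max_right _ _
      _ = max C (2 ^ k0) * 1 := (mul_one _).symm
      _ ≤ _ := mul_le_mul_of_nonneg_left hpow1 (le_trans hC.le (le_max_left _ _))
  · push Not at hkk
    have hk : 2 * ((2 : ℝ) ^ k) ^ (η / 2) < 3 ^ (η * k / 2) := by
      have e1 : ((2 : ℝ) ^ k) ^ (η / 2) = ((2 : ℝ) ^ (η / 2)) ^ k := by
        rw [← Real.rpow_natCast, ← Real.rpow_natCast, ← Real.rpow_mul (by norm_num), ← Real.rpow_mul (by norm_num)]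
        congr 1; ring
      have e2 : (3 : ℝ) ^ (η * k / 2) = ((3 : ℝ) ^ (η / 2)) ^ k := by
        rw [← Real.rpow_natCast, ← Real.rpow_mul (by norm_num)]
        congr 1; ring
      have e3 : (3 : ℝ) ^ (η / 2) = ((3 : ℝ) / 2) ^ (η / 2) * 2 ^ (η / 2) := by
        rw [← Real.mul_rpow (by norm_num) (by norm_num)]
        congr 1; norm_num
      rw [e1, e2, e3, mul_pow]
      apply mul_lt_mul_of_pos_right _ (by positivity)
      exact lt_of_lt_of_le hk0 (pow_le_pow_right₀ hbase.le hkk)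
    -- large arguments
    obtain ⟨n0, hn0⟩ : ∃ n0 : ℕ, ∀ n : ℕ, n0 ≤ n → (2 : ℤ) ^ k ≤ f.eval (n : ℤ) := by
      obtain ⟨n0, hn0⟩ := ev_pos (f := f - Polynomial.C ((2 : ℤ) ^ k)) (by
        rw [Polynomial.natDegree_sub_C]; exact hd) (by
        have hdeg : (Polynomial.C ((2 : ℤ) ^ k)).degree < f.degree := by
          refine lt_of_le_of_lt Polynomial.degree_C_le ?_
          exact Polynomial.natDegree_pos_iff_degree_pos.1 hd
        rw [Polynomial.leadingCoeff_sub_of_degree_lt hdeg]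
        exact hlc)
      refine ⟨n0, fun n hn => ?_⟩
      have := hn0 n hn
      rw [Polynomial.eval_sub, Polynomial.eval_C] at this
      linarith
    set A := (Ioc n0 (n0 + 2 ^ k)).filter (fun n : ℕ => pv k (f.eval (n : ℤ)).toNat ∈ Bad k (η * k)) with hA
    refine ⟨A.image (fun n : ℕ => (n : ZMod (2 ^ k))), ?_, fun n hn hb => ?_⟩
    · have h1 := h n0 (2 ^ k) (one_le_pow₀ (by norm_num)) A (by
        have e : ⌊(2 : ℝ) ^ k⌋₊ = 2 ^ k := by
          have : ((2 : ℝ) ^ k) = ((2 ^ k : ℕ) : ℝ) := by push_cast; rfl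
          rw [this, Nat.floor_natCast]
        rw [e]
        exact Finset.filter_subset _ _) (by
        intro n hn
        rw [hA, mem_filter, mem_Ioc] at hn
        exact bad_not_typ hk (hn0 n hn.1.1.le) hn.2)
      calc ((A.image (fun n : ℕ => (n : ZMod (2 ^ k)))).card : ℝ) ≤ A.card := by
            exact_mod_cast Finset.card_image_le
        _ ≤ C * ((2 : ℝ) ^ k) ^ (1 - δ) := h1
        _ ≤ _ := mul_le_mul_of_nonneg_right (le_max_left _ _) (by positivity)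
    · rw [mem_image]
      obtain ⟨m, hm1, hm2⟩ : ∃ m, m ∈ Ioc n0 (n0 + 2 ^ k) ∧ m ≡ n [MOD 2 ^ k] := by
        have h2 : 0 < 2 ^ k := by positivity
        refine ⟨n0 + 1 + (n + (2 ^ k - 1) * (n0 + 1)) % 2 ^ k, ?_, ?_⟩
        · rw [mem_Ioc]
          have := Nat.mod_lt (n + (2 ^ k - 1) * (n0 + 1)) h2
          omega
        · have e1 : (n + (2 ^ k - 1) * (n0 + 1)) % 2 ^ k ≡ n + (2 ^ k - 1) * (n0 + 1) [MOD 2 ^ k] :=
            Nat.mod_modEq _ _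
          have e2 := e1.add_left (n0 + 1)
          refine e2.trans ?_
          have e3 : n0 + 1 + (n + (2 ^ k - 1) * (n0 + 1)) = n + 2 ^ k * (n0 + 1) := by
            obtain ⟨c, hc⟩ : ∃ c, 2 ^ k = c + 1 := ⟨2 ^ k - 1, by omega⟩
            rw [hc, Nat.add_sub_cancel]; ring
          rw [e3]
          exact (Nat.modEq_iff_dvd' (by omega)).2 ⟨n0 + 1, by omega⟩ |>.symm
      have hfm := hn0 m (by rw [mem_Ioc] at hm1; omega)
      have hfm0 : 0 < f.eval (m : ℤ) := lt_of_lt_of_le (by positivity) hfm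
      refine ⟨m, ?_, (ZMod.natCast_eq_natCast_iff _ _ _).2 hm2⟩
      rw [hA, mem_filter]
      refine ⟨hm1, ?_⟩
      have e1 : ((2 ^ k : ℕ) : ℤ) ∣ (n : ℤ) - m := (Nat.modEq_iff_dvd.1 hm2)
      have e2 : ((2 ^ k : ℕ) : ℤ) ∣ f.eval (n : ℤ) - f.eval (m : ℤ) := e1.trans (Polynomial.sub_dvd_eval_sub _ _ _)
      have e3 : (f.eval (m : ℤ)).toNat ≡ (f.eval (n : ℤ)).toNat [MOD 2 ^ k] := by
        rw [Nat.modEq_iff_dvd, Int.toNat_of_nonneg hn.le, Int.toNat_of_nonneg hfm0.le]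
        exact e2
      rw [pv_congr e3]
      exact hb

end Pool.Agent.X17.MD
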