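import Mathlib

/-! # A sum over residues of products of two-valued weights along a geometric progression -/

set_option autoImplicit false

namespace Pool.Agent.X17.MD

open Finset

/-- the weight: `1` near the multiples of `N`, `ρ` elsewhere -/
noncomputable def W (N b : ℕ) (ρ : ℝ) (a : ℕ) : ℝ :=
  if N ≤ b ^ 2 * (a % N) ∧ b ^ 2 * (a % N) < (b ^ 2 - 1) * N then ρ else 1

variable {N b : ℕ} {ρ : ℝ}

lemma W_mod (a : ℕ) : W N b ρ (a % N) = W N b ρ a := by
  unfold W
  rw [Nat.mod_mod]

lemma W_congr {a a' : ℕ} (h : a % N = a' % N) : W N b ρ a = W N b ρ a' := by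
  rw [← W_mod a, h, W_mod]

lemma W_nonneg (h0 : 0 ≤ ρ) (a : ℕ) : 0 ≤ W N b ρ a := by
  unfold W; split_ifs
  · exact h0
  · exact zero_le_one

lemma W_le_one (h1 : ρ ≤ 1) (a : ℕ) : W N b ρ a ≤ 1 := by
  unfold W; split_ifs
  · exact h1
  · exact le_rfl

lemma W_pow (a k : ℕ) : W N b ρ a ^ k = W N b (ρ ^ k) a := by
  unfold W; split_ifs
  · rfl
  · exact one_pow k

/-- the transition weight -/
noncomputable def v (b : ℕ) (ρ : ℝ) (x y : ℕ) : ℝ :=
  if (x = 0 ∧ y = 0) ∨ (x = b - 1 ∧ y = b - 1) then 1 else ρ

lemma v_nonneg (h0 : 0 ≤ ρ) (x y : ℕ) : 0 ≤ v b ρ x y := by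
  unfold v; split_ifs
  · exact zero_le_one
  · exact h0

lemma digits_facts (hN : 0 < N) {a x : ℕ} (ha : a < N) (hx : b * a / N = x) :
    x * N ≤ b * a ∧ b * a < (x + 1) * N ∧ (0 < b → x < b) := by
  refine ⟨by rw [← hx]; exact Nat.div_mul_le_self _ _, ?_, fun hb => ?_⟩
  · rw [← hx, Nat.add_mul, one_mul]; exact Nat.lt_div_mul_add hN
  · rw [← hx, Nat.div_lt_iff_lt_mul hN]
    exact Nat.mul_lt_mul_of_pos_left ha hb

lemma W_le_v (hN : 0 < N) (hb : 2 ≤ b) (h1 : ρ ≤ 1) {a x y : ℕ} (ha : a < N) (hx : b * a / N = x)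
    (hy : b * (b * a - x * N) / N = y) : W N b ρ a ≤ v b ρ x y := by
  by_cases hv : (x = 0 ∧ y = 0) ∨ (x = b - 1 ∧ y = b - 1)
  · unfold v
    rw [if_pos hv]
    exact W_le_one h1 a
  · unfold v
    rw [if_neg hv]
    unfold W
    rw [Nat.mod_eq_of_lt ha]
    obtain ⟨e1, e2, e5⟩ := digits_facts hN ha hx
    obtain ⟨m, hm⟩ : ∃ m, b * a - x * N = m := ⟨_, rfl⟩
    rw [hm] at hy
    have hmN : m < N := by
      rw [Nat.add_mul, one_mul] at e2
      omega
    obtain ⟨e3, e4, e6⟩ := digits_facts hN hmN hy
    have hba : b * a = x * N + m := by omega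
    have hxb := e5 (by omega)
    have hyb := e6 (by omega)
    have hsq : b ^ 2 * a = b * x * N + b * m := by
      rw [pow_two, mul_assoc, hba]; ring
    obtain ⟨c, rfl⟩ : ∃ c, b = c + 2 := ⟨b - 2, by omega⟩
    rw [if_pos]
    rw [hsq]
    constructor
    · by_cases hx0 : x = 0
      · have hy0 : y ≠ 0 := fun h => hv (Or.inl ⟨hx0, h⟩)
        have : 1 * N ≤ y * N := Nat.mul_le_mul_right _ (by omega)
        omega
      · have : 1 * N ≤ (c + 2) * x * N := Nat.mul_le_mul_right _ (by
          have : 1 ≤ x := by omega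
          nlinarith)
        omega
    · have h3 : (c + 2) * x + y + 1 ≤ (c + 2) ^ 2 - 1 := by
        have h4 : (c + 2) * x + y + 2 ≤ (c + 2) ^ 2 := by
          by_cases hxx : x = c + 1
          · have hyy : y ≤ c := by
              by_contra h
              exact hv (Or.inr ⟨by omega, by omega⟩)
            subst hxx
            nlinarith
          · have : x ≤ c := by omega
            nlinarith
        omega
      calc (c + 2) * x * N + (c + 2) * m < (c + 2) * x * N + (y + 1) * N := by omega
        _ = ((c + 2) * x + y + 1) * N := by ring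
        _ ≤ ((c + 2) ^ 2 - 1) * N := Nat.mul_le_mul_right _ h3

lemma sum_v (hb : 2 ≤ b) (h0 : 0 ≤ ρ) (x : ℕ) : ∑ y ∈ range b, v b ρ x y ≤ 1 + b * ρ := by
  have h : ∀ y ∈ range b, v b ρ x y ≤ (if y = x then 1 else 0) + ρ := by
    intro y _
    unfold v
    split_ifs with h1 h2 h2
    · linarith
    · exfalso; omega
    · linarith
    · linarith
  refine (Finset.sum_le_sum h).trans ?_
  rw [Finset.sum_add_distrib, Finset.sum_const, card_range, nsmul_eq_mul, Finset.sum_ite_eq']
  split_ifs <;> linarith

/-- **the counting lemma** -/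
theorem cnt (hN : 0 < N) (hb : 2 ≤ b) (h0 : 0 ≤ ρ) (h1 : ρ ≤ 1) : ∀ (J s : ℕ) (A : Finset ℕ) (x : ℕ),
    (∀ a ∈ A, a < N ∧ b * a / N = x) → (∀ a ∈ A, ∀ a' ∈ A, a < a' → a + s ≤ a') → N ≤ s * b ^ J →
    ∑ a ∈ A, ∏ j ∈ range J, W N b ρ (b ^ j * a) ≤ (1 + b * ρ) ^ J := by
  intro J
  induction J with
  | zero =>
    intro s A x hA hs hN'
    simp only [range_zero, prod_empty, pow_zero, mul_one] at hN' ⊢
    rw [Finset.sum_const, nsmul_eq_mul, mul_one]
    have : A.card ≤ 1 := by
      rw [Finset.card_le_one]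
      intro a ha a' ha'
      have e1 := (hA a ha).1
      have e2 := (hA a' ha').1
      rcases lt_trichotomy a a' with h | h | h
      · have := hs a ha a' ha' h; omega
      · exact h
      · have := hs a' ha' a ha h; omega
    exact_mod_cast this
  | succ J ih =>
    intro s A x hA hs hN'
    have hbp : (0 : ℝ) ≤ 1 + b * ρ := by positivity
    set g : ℕ → ℕ := fun a => b * a - x * N with hg
    have hgN : ∀ a ∈ A, g a < N ∧ b * a = x * N + g a := by
      intro a ha
      obtain ⟨h2, h3⟩ := hA a ha
      obtain ⟨e1, e2, _⟩ := digits_facts hN h2 h3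
      rw [Nat.add_mul, one_mul] at e2
      simp only [hg]
      omega
    have hginj : Set.InjOn g A := by
      intro a ha a' ha' h
      have e1 := (hgN a ha).2
      have e2 := (hgN a' ha').2
      rw [h] at e1
      exact Nat.eq_of_mul_eq_mul_left (by omega) (e1.trans e2.symm)
    have hmaps : ∀ a ∈ A, b * g a / N ∈ range b := by
      intro a ha
      rw [mem_range]
      exact (digits_facts hN (hgN a ha).1 rfl).2.2 (by omega)
    rw [← Finset.sum_fiberwise_of_maps_to hmaps]
    calc ∑ y ∈ range b, ∑ a ∈ A with b * g a / N = y, ∏ j ∈ range (J + 1), W N b ρ (b ^ j * a)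
        ≤ ∑ y ∈ range b, v b ρ x y * (1 + b * ρ) ^ J := by
          apply Finset.sum_le_sum
          intro y _
          have hterm : ∀ a ∈ A.filter (fun a => b * g a / N = y),
              ∏ j ∈ range (J + 1), W N b ρ (b ^ j * a) ≤
                v b ρ x y * ∏ j ∈ range J, W N b ρ (b ^ j * g a) := by
            intro a ha
            rw [mem_filter] at ha
            rw [Finset.prod_range_succ']
            rw [mul_comm]
            have e0 : b ^ 0 * a = a := by simp
            rw [e0]
            have e1 : ∀ j ∈ range J, W N b ρ (b ^ (j + 1) * a) = W N b ρ (b ^ j * g a) := by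
              intro j _
              apply W_congr
              have : b ^ (j + 1) * a = b ^ j * g a + (b ^ j * x) * N := by
                rw [pow_succ, mul_assoc, (hgN a ha.1).2]; ring
              rw [this, Nat.add_mul_mod_self_right]
            rw [Finset.prod_congr rfl e1]
            apply mul_le_mul_of_nonneg_right
            · exact W_le_v hN hb h1 (hA a ha.1).1 (hA a ha.1).2 ha.2
            · exact Finset.prod_nonneg fun j _ => W_nonneg h0 _
          refine (Finset.sum_le_sum hterm).trans ?_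
          rw [← Finset.mul_sum]
          apply mul_le_mul_of_nonneg_left _ (v_nonneg h0 _ _)
          have h5 := ih (s * b) ((A.filter (fun a => b * g a / N = y)).image g) y (by
            intro c hc
            rw [mem_image] at hc
            obtain ⟨a, ha, rfl⟩ := hc
            rw [mem_filter] at ha
            exact ⟨(hgN a ha.1).1, ha.2⟩) (by
            intro c hc c' hc' hlt
            rw [mem_image] at hc hc'
            obtain ⟨a, ha, rfl⟩ := hc
            obtain ⟨a', ha', rfl⟩ := hc'
            rw [mem_filter] at ha ha'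
            have e1 := (hgN a ha.1).2
            have e2 := (hgN a' ha'.1).2
            have e3 : a < a' := by
              have : b * a < b * a' := by omega
              exact Nat.lt_of_mul_lt_mul_left this
            have e4 := hs a ha.1 a' ha'.1 e3
            have e5 : b * (a + s) ≤ b * a' := Nat.mul_le_mul_left b e4
            have e6 : b * (a + s) = b * a + s * b := by ring
            omega) (by rw [mul_assoc, ← pow_succ']; exact hN')
          rw [Finset.sum_image] at h5
          · exact h5
          · intro a ha a' ha' h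
            exact hginj (Finset.mem_of_mem_filter _ ha) (Finset.mem_of_mem_filter _ ha') h
      _ = (∑ y ∈ range b, v b ρ x y) * (1 + b * ρ) ^ J := by rw [Finset.sum_mul]
      _ ≤ (1 + b * ρ) * (1 + b * ρ) ^ J := by
          apply mul_le_mul_of_nonneg_right (sum_v hb h0 x) (by positivity)
      _ = (1 + b * ρ) ^ (J + 1) := by rw [pow_succ']

theorem cnt_all (hN : 0 < N) (hb : 2 ≤ b) (h0 : 0 ≤ ρ) (h1 : ρ ≤ 1) {J : ℕ} (hJ : N ≤ b ^ J) :
    ∑ a ∈ range N, ∏ j ∈ range J, W N b ρ (b ^ j * a) ≤ b * (1 + b * ρ) ^ J := by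
  have hmaps : ∀ a ∈ range N, b * a / N ∈ range b := by
    intro a ha
    rw [mem_range] at ha ⊢
    exact (digits_facts hN ha rfl).2.2 (by omega)
  rw [← Finset.sum_fiberwise_of_maps_to hmaps]
  calc ∑ x ∈ range b, ∑ a ∈ range N with b * a / N = x, ∏ j ∈ range J, W N b ρ (b ^ j * a)
      ≤ ∑ _x ∈ range b, (1 + b * ρ) ^ J := by
        apply Finset.sum_le_sum
        intro x _
        apply cnt hN hb h0 h1 J 1 _ x
        · intro a ha
          rw [mem_filter, mem_range] at ha
          exact ha
        · intro a _ a' _ h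
          omega
        · rw [one_mul]; exact hJ
    _ = b * (1 + b * ρ) ^ J := by rw [Finset.sum_const, card_range, nsmul_eq_mul]

end Pool.Agent.X17.MD
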