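import Pool.Agent.X17.MD.Cnt

/-! # Collisions of the values of a random sum modulo `N` -/

set_option autoImplicit false

namespace Pool.Agent.X17.MD

open Finset ZMod

section parseval

variable {N : ℕ} [NeZero N] {ι : Type*} [Fintype ι]

/-- the law of `X` -/
noncomputable def law (w : ι → ℝ) (X : ι → ZMod N) (z : ZMod N) : ℝ := ∑ d, if X d = z then w d else 0

lemma law_sq (w : ι → ℝ) (X : ι → ZMod N) :
    ∑ z, law w X z ^ 2 = ∑ d, ∑ d', if X d = X d' then w d * w d' else 0 := by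
  unfold law
  simp_rw [pow_two, Finset.sum_mul_sum]
  rw [Finset.sum_comm]
  apply Finset.sum_congr rfl
  intro d _
  rw [Finset.sum_comm]
  apply Finset.sum_congr rfl
  intro d' _
  rw [Finset.sum_eq_single (X d)]
  · simp only [if_true]
    by_cases h : X d = X d'
    · rw [if_pos h, if_pos h.symm]
    · rw [if_neg h, if_neg (fun h' => h h'.symm), mul_zero]
  · intro z _ hz
    rw [if_neg (fun h => hz h.symm), zero_mul]
  · intro h; exact absurd (mem_univ _) h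

theorem parseval (w : ι → ℝ) (X : ι → ZMod N) :
    (N : ℝ) * ∑ z, law w X z ^ 2 =
      ∑ a : ZMod N, ‖∑ d, (w d : ℂ) * stdAddChar (a * X d)‖ ^ 2 := by
  rw [law_sq]
  have h : ((∑ a : ZMod N, ‖∑ d, (w d : ℂ) * stdAddChar (a * X d)‖ ^ 2 : ℝ) : ℂ) =
      (((N : ℝ) * ∑ d, ∑ d', (if X d = X d' then w d * w d' else 0) : ℝ) : ℂ) := by
    push_cast
    simp_rw [← Complex.mul_conj', map_sum, map_mul, Complex.conj_ofReal, ← AddChar.map_neg_eq_conj,
      Finset.sum_mul_sum]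
    rw [Finset.sum_comm, Finset.mul_sum]
    apply Finset.sum_congr rfl
    intro d _
    rw [Finset.sum_comm, Finset.mul_sum]
    apply Finset.sum_congr rfl
    intro d' _
    have e : ∀ a : ZMod N, (w d : ℂ) * stdAddChar (a * X d) * ((w d' : ℂ) * stdAddChar (-(a * X d'))) =
        (w d * w d' : ℂ) * stdAddChar (a * (X d - X d')) := by
      intro a
      rw [mul_sub, sub_eq_add_neg, AddChar.map_add_eq_mul]
      ring
    simp_rw [e]
    rw [← Finset.mul_sum, AddChar.sum_mulShift _ (isPrimitive_stdAddChar N), ZMod.card]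
    by_cases hz : X d = X d'
    · rw [if_pos (sub_eq_zero.2 hz), if_pos hz]; push_cast; ring
    · rw [if_neg (fun h' => hz (sub_eq_zero.1 h')), if_neg hz]; push_cast; ring
  exact_mod_cast h.symm

/-- the measure of a set of classes -/
theorem meas_le (w : ι → ℝ) (hw : ∀ d, 0 ≤ w d) (X : ι → ZMod N) (Z : Finset (ZMod N)) (S : Finset ι)
    (hS : ∀ d ∈ S, X d ∈ Z) :
    (∑ d ∈ S, w d) ^ 2 ≤ Z.card * ∑ z, law w X z ^ 2 := by
  have h1 : ∑ d ∈ S, w d ≤ ∑ z ∈ Z, law w X z := by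
    unfold law
    rw [Finset.sum_comm]
    calc ∑ d ∈ S, w d ≤ ∑ d ∈ S, ∑ z ∈ Z, (if X d = z then w d else 0) := by
          apply Finset.sum_le_sum
          intro d hd
          rw [Finset.sum_ite_eq, if_pos (hS d hd)]
      _ ≤ ∑ d, ∑ z ∈ Z, (if X d = z then w d else 0) := by
          apply Finset.sum_le_sum_of_subset_of_nonneg (subset_univ _)
          intro d _ _
          apply Finset.sum_nonneg
          intro z _
          split_ifs
          · exact hw d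
          · exact le_rfl
  have h0 : 0 ≤ ∑ d ∈ S, w d := Finset.sum_nonneg fun d _ => hw d
  calc (∑ d ∈ S, w d) ^ 2 ≤ (∑ z ∈ Z, law w X z) ^ 2 := pow_le_pow_left₀ h0 h1 2
    _ ≤ Z.card * ∑ z ∈ Z, law w X z ^ 2 := sq_sum_le_card_mul_sum_sq
    _ ≤ Z.card * ∑ z, law w X z ^ 2 := by
        apply mul_le_mul_of_nonneg_left _ (Nat.cast_nonneg _)
        exact Finset.sum_le_sum_of_subset_of_nonneg (subset_univ _) fun z _ _ => sq_nonneg _

end parseval

section char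

variable {N : ℕ} [NeZero N]

lemma one_add_char {b : ℕ} (hb : 2 ≤ b) (y : ZMod N) (h : N ≤ b ^ 2 * y.val ∧ b ^ 2 * y.val < (b ^ 2 - 1) * N) :
    ‖(1 : ℂ) + stdAddChar y‖ ≤ 2 - 4 / (b : ℝ) ^ 4 := by
  have hN : (0 : ℝ) < N := by exact_mod_cast Nat.pos_of_ne_zero (NeZero.ne N)
  have hb0 : (0 : ℝ) < b := by exact_mod_cast (by omega : 0 < b)
  have hb2 : (1 : ℝ) ≤ (b : ℝ) ^ 2 := one_le_pow₀ (by exact_mod_cast (by omega : 1 ≤ b))
  set s : ℝ := 1 / (b : ℝ) ^ 2 with hs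
  have hs0 : 0 < s := by positivity
  have hs1 : s ≤ 1 / 4 := by
    rw [hs]
    have : (2 : ℝ) ≤ b := by exact_mod_cast hb
    rw [div_le_div_iff₀ (by positivity) (by norm_num)]
    nlinarith
  set u : ℝ := (y.val : ℝ) / N with hu
  have hu1 : s ≤ u := by
    rw [hs, hu, div_le_div_iff₀ (by positivity) hN]
    have : (N : ℝ) ≤ b ^ 2 * y.val := by exact_mod_cast h.1
    linarith
  have hu2 : u ≤ 1 - s := by
    rw [hs, hu]
    have h2 : (b : ℝ) ^ 2 * y.val ≤ (b ^ 2 - 1) * N := by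
      have h3 : b ^ 2 * y.val + N ≤ b ^ 2 * N := by
        have h4 : (b ^ 2 - 1) * N + N = b ^ 2 * N := by
          obtain ⟨c, hc⟩ : ∃ c, b ^ 2 = c + 1 := ⟨b ^ 2 - 1, by
            have : 1 ≤ b ^ 2 := Nat.one_le_pow _ _ (by omega)
            omega⟩
          rw [hc, Nat.add_sub_cancel]; ring
        omega
      have h5 : (b : ℝ) ^ 2 * y.val + N ≤ b ^ 2 * N := by exact_mod_cast h3
      linarith
    rw [div_le_iff₀ hN]
    have : (1 - 1 / (b : ℝ) ^ 2) * N = ((b ^ 2 - 1) * N) / b ^ 2 := by field_simp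
    rw [this, le_div_iff₀ (by positivity)]
    linarith
  have hψ : stdAddChar y = Complex.exp (2 * Real.pi * Complex.I * u) := by
    rw [stdAddChar_apply, toCircle_apply, hu]
    congr 1
    push_cast
    ring
  have hsin : 2 * s ≤ Real.sin (Real.pi * u) := by
    have hpi := Real.pi_pos
    rcases le_total u (1 / 2) with h1 | h1
    · have := Real.mul_le_sin (x := Real.pi * u) (by positivity) (by nlinarith)
      have e : 2 / Real.pi * (Real.pi * u) = 2 * u := by field_simp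
      rw [e] at this
      linarith
    · rw [← Real.sin_pi_sub]
      have := Real.mul_le_sin (x := Real.pi - Real.pi * u) (by nlinarith) (by nlinarith)
      have e : 2 / Real.pi * (Real.pi - Real.pi * u) = 2 * (1 - u) := by field_simp
      rw [e] at this
      linarith
  have hnorm : ‖(1 : ℂ) + stdAddChar y‖ ^ 2 = 4 - 4 * Real.sin (Real.pi * u) ^ 2 := by
    rw [hψ]
    have e1 : (2 * Real.pi * Complex.I * u : ℂ) = ((2 * (Real.pi * u) : ℝ) : ℂ) * Complex.I := by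
      push_cast; ring
    rw [e1, Complex.exp_mul_I, ← Complex.ofReal_cos, ← Complex.ofReal_sin]
    rw [Complex.sq_norm, Complex.normSq_apply]
    simp only [Complex.add_re, Complex.one_re, Complex.ofReal_re, Complex.mul_re, Complex.I_re, mul_zero,
      Complex.ofReal_im, Complex.I_im, mul_one, sub_self, add_zero, Complex.add_im, Complex.one_im,
      Complex.mul_im, zero_add]
    have h3 := Real.cos_two_mul (Real.pi * u)
    have h4 := Real.sin_sq_add_cos_sq (2 * (Real.pi * u))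
    have h5 := Real.sin_sq_add_cos_sq (Real.pi * u)
    nlinarith
  have h6 : ‖(1 : ℂ) + stdAddChar y‖ ^ 2 ≤ (2 - 4 / (b : ℝ) ^ 4) ^ 2 := by
    have e2 : 4 / (b : ℝ) ^ 4 = 4 * s ^ 2 := by rw [hs]; field_simp
    rw [hnorm, e2]
    have h7 : (2 * s) ^ 2 ≤ Real.sin (Real.pi * u) ^ 2 := pow_le_pow_left₀ (by positivity) hsin 2
    nlinarith [sq_nonneg (4 * s ^ 2)]
  have h9 : 4 / (b : ℝ) ^ 4 ≤ 1 := by
    rw [div_le_one (by positivity)]
    have : (2 : ℝ) ≤ b := by exact_mod_cast hb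
    calc (4 : ℝ) ≤ 2 ^ 4 := by norm_num
      _ ≤ (b : ℝ) ^ 4 := pow_le_pow_left₀ (by norm_num) this 4
  exact (sq_le_sq₀ (norm_nonneg _) (by linarith)).1 h6

/-- a random digit: the size of the characteristic function -/
lemma digit_bd {b Δ : ℕ} (hb : 2 ≤ b) {c : ℝ} (hc : 0 ≤ c) (ν : Fin b → ℝ) (h0 : ∀ x, 0 ≤ ν x)
    (h1 : ∑ x, ν x = 1) (e e' : Fin b) (he : (e' : ℕ) = e + Δ) (hΔ : 0 < Δ) (h2 : c ≤ ν e) (h3 : c ≤ ν e')
    (u : ZMod N) : ‖∑ x : Fin b, (ν x : ℂ) * stdAddChar (u * ((x : ℕ) : ZMod N))‖ ≤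
      W N b (1 - c * (4 / (b : ℝ) ^ 4)) (u * (Δ : ZMod N)).val := by
  have hne : e ≠ e' := by
    intro h
    rw [h] at he
    omega
  have hnorm : ∀ z : ZMod N, ‖stdAddChar z‖ = 1 := fun z => by
    rw [stdAddChar_apply]; exact Circle.norm_coe _
  have hsplit : ∀ f : Fin b → ℂ, ∑ x, f x = (f e + f e') + ∑ x ∈ univ.filter (fun x => x ≠ e ∧ x ≠ e'), f x := by
    intro f
    rw [← Finset.sum_filter_add_sum_filter_not univ (fun x => x ≠ e ∧ x ≠ e'), add_comm]
    congr 1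
    have : (univ.filter (fun x => ¬ (x ≠ e ∧ x ≠ e'))) = {e, e'} := by
      ext x
      simp only [mem_filter, mem_univ, true_and, mem_insert, mem_singleton]
      tauto
    rw [this, Finset.sum_pair hne]
  have hsplitR : ∑ x, ν x = (ν e + ν e') + ∑ x ∈ univ.filter (fun x => x ≠ e ∧ x ≠ e'), ν x := by
    have := hsplit (fun x => (ν x : ℂ))
    exact_mod_cast this
  have hrest : ‖∑ x ∈ univ.filter (fun x : Fin b => x ≠ e ∧ x ≠ e'),
      (ν x : ℂ) * stdAddChar (u * ((x : ℕ) : ZMod N))‖ ≤ ∑ x ∈ univ.filter (fun x => x ≠ e ∧ x ≠ e'), ν x := by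
    refine (norm_sum_le _ _).trans (Finset.sum_le_sum fun x _ => ?_)
    rw [norm_mul, hnorm, mul_one, Complex.norm_real, Real.norm_of_nonneg (h0 x)]
  have hpair : ‖(ν e : ℂ) * stdAddChar (u * ((e : ℕ) : ZMod N)) +
      (ν e' : ℂ) * stdAddChar (u * ((e' : ℕ) : ZMod N))‖ ≤
      (ν e + ν e') - 2 * c + c * ‖(1 : ℂ) + stdAddChar (u * (Δ : ZMod N))‖ := by
    have e1 : stdAddChar (u * ((e' : ℕ) : ZMod N)) =
        stdAddChar (u * ((e : ℕ) : ZMod N)) * stdAddChar (u * (Δ : ZMod N)) := by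
      rw [← AddChar.map_add_eq_mul, he]
      push_cast
      rw [mul_add]
    rw [e1]
    have e2 : (ν e : ℂ) * stdAddChar (u * ((e : ℕ) : ZMod N)) +
        (ν e' : ℂ) * (stdAddChar (u * ((e : ℕ) : ZMod N)) * stdAddChar (u * (Δ : ZMod N))) =
        stdAddChar (u * ((e : ℕ) : ZMod N)) * ((((ν e - c : ℝ) : ℂ) +
          ((ν e' - c : ℝ) : ℂ) * stdAddChar (u * (Δ : ZMod N))) +
          (c : ℂ) * (1 + stdAddChar (u * (Δ : ZMod N)))) := by
      push_cast; ring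
    rw [e2, norm_mul, hnorm, one_mul]
    refine (norm_add_le _ _).trans ?_
    refine (add_le_add_left (norm_add_le _ _) _).trans ?_
    rw [norm_mul, norm_mul, hnorm, mul_one, Complex.norm_real, Complex.norm_real, Complex.norm_real,
      Real.norm_of_nonneg (sub_nonneg.2 h2), Real.norm_of_nonneg (sub_nonneg.2 h3), Real.norm_of_nonneg hc]
    linarith
  rw [hsplit]
  refine (norm_add_le _ _).trans ?_
  refine (add_le_add hpair hrest).trans ?_
  rw [hsplitR] at h1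
  unfold W
  rw [Nat.mod_eq_of_lt (ZMod.val_lt _)]
  split_ifs with h
  · have := one_add_char hb _ h
    have h5 := mul_le_mul_of_nonneg_left this hc
    linarith
  · have h4 : ‖(1 : ℂ) + stdAddChar (u * (Δ : ZMod N))‖ ≤ 2 := by
      refine (norm_add_le _ _).trans ?_
      rw [hnorm, norm_one]; norm_num
    have h5 := mul_le_mul_of_nonneg_left h4 hc
    linarith

end char

section prod

variable {N : ℕ} [NeZero N]

/-- the number with given digits -/
def num (b : ℕ) {L : ℕ} (d : Fin L → Fin b) : ℕ := ∑ j : Fin L, (d j : ℕ) * b ^ (j : ℕ)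

/-- the product weight -/
noncomputable def wt {b L : ℕ} (ν : Fin L → Fin b → ℝ) (d : Fin L → Fin b) : ℝ := ∏ j, ν j (d j)

lemma char_sum {ι : Type*} (s : Finset ι) (f : ι → ZMod N) :
    (stdAddChar (∑ i ∈ s, f i) : ℂ) = ∏ i ∈ s, stdAddChar (f i) := by
  classical
  induction s using Finset.induction_on with
  | empty => simp
  | insert i s hi ih => rw [Finset.sum_insert hi, Finset.prod_insert hi, AddChar.map_add_eq_mul, ih]

theorem char_prod {b L : ℕ} (ν : Fin L → Fin b → ℝ) (a : ZMod N) :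
    ∑ d : Fin L → Fin b, (wt ν d : ℂ) * stdAddChar (a * ((num b d : ℕ) : ZMod N)) =
      ∏ j : Fin L, ∑ x : Fin b, (ν j x : ℂ) * stdAddChar ((a * (b : ZMod N) ^ (j : ℕ)) * ((x : ℕ) : ZMod N)) := by
  rw [Finset.prod_univ_sum, Fintype.piFinset_univ]
  apply Finset.sum_congr rfl
  intro d _
  unfold wt num
  push_cast
  rw [Finset.prod_mul_distrib, Finset.mul_sum]
  congr 1
  rw [char_sum]
  apply Finset.prod_congr rfl
  intro j _
  congr 1
  ring

/-- the conditions on the laws of the digits -/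
structure Law (b Δ : ℕ) (c : ℝ) {L : ℕ} (ν : Fin L → Fin b → ℝ) : Prop where
  nonneg : ∀ j x, 0 ≤ ν j x
  one : ∀ j, ∑ x, ν j x = 1
  two : ∀ j, ∃ e e' : Fin b, (e' : ℕ) = e + Δ ∧ c ≤ ν j e ∧ c ≤ ν j e'

theorem char_bd {b Δ L : ℕ} (hb : 2 ≤ b) (hΔ : 0 < Δ) {c : ℝ} (hc : 0 ≤ c) {ν : Fin L → Fin b → ℝ}
    (h : Law b Δ c ν) (a : ZMod N) :
    ‖∑ d : Fin L → Fin b, (wt ν d : ℂ) * stdAddChar (a * ((num b d : ℕ) : ZMod N))‖ ≤
      ∏ j ∈ range L, W N b (1 - c * (4 / (b : ℝ) ^ 4)) (b ^ j * (a * (Δ : ZMod N)).val) := by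
  rw [char_prod, norm_prod, ← Fin.prod_univ_eq_prod_range
    (fun j => W N b (1 - c * (4 / (b : ℝ) ^ 4)) (b ^ j * (a * (Δ : ZMod N)).val)) L]
  apply Finset.prod_le_prod
  · intro j _; exact norm_nonneg _
  · intro j _
    obtain ⟨e, e', he, h2, h3⟩ := h.two j
    refine (digit_bd hb hc (ν j) (h.nonneg j) (h.one j) e e' he hΔ h2 h3 _).trans (le_of_eq ?_)
    apply W_congr
    have e1 : ((b ^ (j : ℕ) * (a * (Δ : ZMod N)).val : ℕ) : ZMod N) = a * (b : ZMod N) ^ (j : ℕ) * (Δ : ZMod N) := by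
      push_cast
      rw [ZMod.natCast_zmod_val]
      ring
    rw [← e1, ZMod.val_natCast, Nat.mod_mod]

end prod

section count

variable {N b : ℕ}

lemma prod_range_mul' (f : ℕ → ℝ) (r J : ℕ) :
    ∏ j ∈ range (r * J), f j = ∏ i ∈ range r, ∏ j ∈ range J, f (i * J + j) := by
  induction r with
  | zero => simp
  | succ r ih =>
    rw [Nat.succ_mul, Finset.prod_range_add, ih, Finset.prod_range_succ]

lemma prod_le_sum_pow {r : ℕ} (hr : 1 ≤ r) (y : ℕ → ℝ) (h0 : ∀ i, 0 ≤ y i) :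
    ∏ i ∈ range r, y i ≤ ∑ i ∈ range r, y i ^ r := by
  obtain ⟨m, hm, hmax⟩ := Finset.exists_max_image (range r) y ⟨0, by rw [mem_range]; omega⟩
  calc ∏ i ∈ range r, y i ≤ ∏ _i ∈ range r, y m := Finset.prod_le_prod (fun i _ => h0 i) hmax
    _ = y m ^ r := by rw [Finset.prod_const, card_range]
    _ ≤ ∑ i ∈ range r, y i ^ r :=
        Finset.single_le_sum (f := fun i => y i ^ r) (fun i _ => pow_nonneg (h0 i) _) hm

lemma sum_val [NeZero N] (f : ℕ → ℝ) : ∑ a : ZMod N, f a.val = ∑ a ∈ range N, f a := by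
  apply Finset.sum_nbij' (fun a : ZMod N => a.val) (fun n => (n : ZMod N))
  · intro a _; rw [mem_range]; exact ZMod.val_lt a
  · intro n _; exact mem_univ _
  · intro a _; exact ZMod.natCast_zmod_val a
  · intro n hn; exact ZMod.val_cast_of_lt (mem_range.1 hn)
  · intro a _; rfl

lemma sum_unit [NeZero N] (f : ℕ → ℝ) (m : ℕ) (hm : Nat.Coprime m N) :
    ∑ a : ZMod N, f (a * (m : ZMod N)).val = ∑ a : ZMod N, f a.val := by
  have hu : IsUnit (m : ZMod N) := (ZMod.isUnit_iff_coprime m N).2 hm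
  exact Fintype.sum_bijective (fun a : ZMod N => a * (m : ZMod N)) (IsUnit.isUnit_iff_mulRight_bijective.1 hu)
    _ _ (fun _ => rfl)

/-- the sum over all the frequencies -/
theorem freq [NeZero N] (hb : 2 ≤ b) (hbN : Nat.Coprime b N) {Δ : ℕ} (hΔ : Nat.Coprime Δ N) {ρ : ℝ}
    (h0 : 0 ≤ ρ) (h1 : ρ ≤ 1) {r J L : ℕ} (hr : 1 ≤ r) (hJ : N ≤ b ^ J) (hL : r * J ≤ L) :
    ∑ a : ZMod N, (∏ j ∈ range L, W N b ρ (b ^ j * (a * (Δ : ZMod N)).val)) ^ 2 ≤
      r * (b * (1 + b * ρ ^ (2 * r)) ^ J) := by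
  have hN : 0 < N := Nat.pos_of_ne_zero (NeZero.ne N)
  rw [sum_unit (fun m => (∏ j ∈ range L, W N b ρ (b ^ j * m)) ^ 2) Δ hΔ]
  have hy0 : ∀ m, 0 ≤ ∏ j ∈ range J, W N b ρ (b ^ j * m) := fun m =>
    Finset.prod_nonneg fun j _ => W_nonneg h0 _
  have step : ∀ a : ZMod N, (∏ j ∈ range L, W N b ρ (b ^ j * a.val)) ^ 2 ≤
      ∑ i ∈ range r, (∏ j ∈ range J, W N b (ρ ^ (2 * r)) (b ^ j * (a * ((b ^ (i * J) : ℕ) : ZMod N)).val)) := by
    intro a
    have e1 : ∏ j ∈ range L, W N b ρ (b ^ j * a.val) ≤ ∏ j ∈ range (r * J), W N b ρ (b ^ j * a.val) := by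
      have hsub : range (r * J) ⊆ range L := Finset.range_subset_range.2 hL
      rw [← Finset.prod_sdiff hsub]
      apply mul_le_of_le_one_left (Finset.prod_nonneg fun j _ => W_nonneg h0 _)
      exact Finset.prod_le_one (fun j _ => W_nonneg h0 _) (fun j _ => W_le_one h1 _)
    have e2 : ∏ j ∈ range (r * J), W N b ρ (b ^ j * a.val) =
        ∏ i ∈ range r, ∏ j ∈ range J, W N b ρ (b ^ j * (a * ((b ^ (i * J) : ℕ) : ZMod N)).val) := by
      rw [prod_range_mul']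
      apply Finset.prod_congr rfl
      intro i _
      apply Finset.prod_congr rfl
      intro j _
      apply W_congr
      have e3 : ((b ^ (i * J + j) * a.val : ℕ) : ZMod N) =
          ((b ^ j * (a * ((b ^ (i * J) : ℕ) : ZMod N)).val : ℕ) : ZMod N) := by
        push_cast
        rw [ZMod.natCast_zmod_val, ZMod.natCast_zmod_val]
        ring
      have e4 := congrArg ZMod.val e3
      rwa [ZMod.val_natCast, ZMod.val_natCast] at e4
    calc (∏ j ∈ range L, W N b ρ (b ^ j * a.val)) ^ 2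
        ≤ (∏ j ∈ range (r * J), W N b ρ (b ^ j * a.val)) ^ 2 :=
          pow_le_pow_left₀ (Finset.prod_nonneg fun j _ => W_nonneg h0 _) e1 2
      _ = ∏ i ∈ range r, (∏ j ∈ range J, W N b ρ (b ^ j * (a * ((b ^ (i * J) : ℕ) : ZMod N)).val)) ^ 2 := by
          rw [e2, Finset.prod_pow]
      _ ≤ ∑ i ∈ range r, ((∏ j ∈ range J, W N b ρ (b ^ j * (a * ((b ^ (i * J) : ℕ) : ZMod N)).val)) ^ 2) ^ r :=
          prod_le_sum_pow hr _ (fun i => sq_nonneg _)
      _ = _ := by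
          apply Finset.sum_congr rfl
          intro i _
          rw [← pow_mul, ← Finset.prod_pow]
          apply Finset.prod_congr rfl
          intro j _
          rw [W_pow]
  refine (Finset.sum_le_sum fun a _ => step a).trans ?_
  rw [Finset.sum_comm]
  have hρ0 : 0 ≤ ρ ^ (2 * r) := pow_nonneg h0 _
  have hρ1 : ρ ^ (2 * r) ≤ 1 := pow_le_one₀ h0 h1
  calc ∑ i ∈ range r, ∑ a : ZMod N, ∏ j ∈ range J, W N b (ρ ^ (2 * r)) (b ^ j * (a * ((b ^ (i * J) : ℕ) : ZMod N)).val)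
      ≤ ∑ _i ∈ range r, (b * (1 + b * ρ ^ (2 * r)) ^ J) := by
        apply Finset.sum_le_sum
        intro i _
        rw [sum_unit (fun m => ∏ j ∈ range J, W N b (ρ ^ (2 * r)) (b ^ j * m)) (b ^ (i * J))
          (Nat.Coprime.pow_left _ hbN), sum_val (fun m => ∏ j ∈ range J, W N b (ρ ^ (2 * r)) (b ^ j * m))]
        exact cnt_all hN hb hρ0 hρ1 hJ
    _ = r * (b * (1 + b * ρ ^ (2 * r)) ^ J) := by rw [Finset.sum_const, card_range, nsmul_eq_mul]

/-- **the measure of a set of classes modulo `N`** -/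
theorem meas [NeZero N] {Δ L : ℕ} (hb : 2 ≤ b) (hbN : Nat.Coprime b N) (hΔ0 : 0 < Δ) (hΔ : Nat.Coprime Δ N)
    {c : ℝ} (hc : 0 ≤ c) (hc1 : c ≤ 1) {ν : Fin L → Fin b → ℝ} (h : Law b Δ c ν) {r J : ℕ} (hr : 1 ≤ r)
    (hJ : N ≤ b ^ J) (hL : r * J ≤ L) (Z : Finset (ZMod N)) (S : Finset (Fin L → Fin b))
    (hS : ∀ d ∈ S, ((num b d : ℕ) : ZMod N) ∈ Z) :
    (∑ d ∈ S, wt ν d) ^ 2 ≤
      Z.card / N * (r * (b * (1 + b * (1 - c * (4 / (b : ℝ) ^ 4)) ^ (2 * r)) ^ J)) := by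
  have hN : (0 : ℝ) < N := by exact_mod_cast Nat.pos_of_ne_zero (NeZero.ne N)
  have hw : ∀ d, 0 ≤ wt ν d := fun d => Finset.prod_nonneg fun j _ => h.nonneg j _
  have hb4 : 4 / (b : ℝ) ^ 4 ≤ 1 := by
    have h2 : (2 : ℝ) ≤ b := by exact_mod_cast hb
    rw [div_le_one (by positivity)]
    calc (4 : ℝ) ≤ 2 ^ 4 := by norm_num
      _ ≤ (b : ℝ) ^ 4 := pow_le_pow_left₀ (by norm_num) h2 4
  have hb40 : 0 ≤ 4 / (b : ℝ) ^ 4 := by positivity
  have hρ0 : 0 ≤ 1 - c * (4 / (b : ℝ) ^ 4) := by nlinarith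
  have hρ1 : 1 - c * (4 / (b : ℝ) ^ 4) ≤ 1 := by nlinarith
  have h1 := meas_le (wt ν) hw (fun d => ((num b d : ℕ) : ZMod N)) Z S hS
  have h2 := parseval (wt ν) (fun d => ((num b d : ℕ) : ZMod N))
  have h3 : (N : ℝ) * ∑ z, law (wt ν) (fun d => ((num b d : ℕ) : ZMod N)) z ^ 2 ≤
      r * (b * (1 + b * (1 - c * (4 / (b : ℝ) ^ 4)) ^ (2 * r)) ^ J) := by
    rw [h2]
    refine le_trans (Finset.sum_le_sum fun a _ => ?_) (freq hb hbN hΔ hρ0 hρ1 hr hJ hL)
    exact pow_le_pow_left₀ (norm_nonneg _) (char_bd hb hΔ0 hc h a) 2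
  calc (∑ d ∈ S, wt ν d) ^ 2 ≤ Z.card * ∑ z, law (wt ν) (fun d => ((num b d : ℕ) : ZMod N)) z ^ 2 := h1
    _ = Z.card / N * ((N : ℝ) * ∑ z, law (wt ν) (fun d => ((num b d : ℕ) : ZMod N)) z ^ 2) := by
        field_simp
    _ ≤ _ := mul_le_mul_of_nonneg_left h3 (by positivity)

end count

end Pool.Agent.X17.MD
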