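import Pool.Agent.X17.MD.Cls

/-! # Collatz trajectories of the values of a polynomial at integers with random digits -/

set_option autoImplicit false

namespace Pool.Agent.X17.MD

open Finset Polynomial Pool.Agent.Y927.CP

section prob

variable {b L : ℕ}

/-- the probability that the integer with digits of laws `ν` has the property `P` -/
noncomputable def prob (ν : Fin L → Fin b → ℝ) (P : ℕ → Prop) : ℝ := by
  classical
  exact ∑ d ∈ (univ : Finset (Fin L → Fin b)).filter (fun d => P (num b d)), wt ν d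

variable {ν : Fin L → Fin b → ℝ}

lemma prob_eq (P : ℕ → Prop) (S : Finset (Fin L → Fin b)) (hS : ∀ d, d ∈ S ↔ P (num b d)) :
    prob ν P = ∑ d ∈ S, wt ν d := by
  classical
  unfold prob
  congr 1
  ext d
  rw [hS, mem_filter]
  simp

lemma wt_nonneg (h : ∀ j x, 0 ≤ ν j x) (d : Fin L → Fin b) : 0 ≤ wt ν d :=
  Finset.prod_nonneg fun j _ => h j _

lemma prob_nonneg (h : ∀ j x, 0 ≤ ν j x) (P : ℕ → Prop) : 0 ≤ prob ν P :=
  Finset.sum_nonneg fun d _ => wt_nonneg h d

lemma prob_mono (h : ∀ j x, 0 ≤ ν j x) {P Q : ℕ → Prop} (hPQ : ∀ n, P n → Q n) : prob ν P ≤ prob ν Q := by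
  classical
  unfold prob
  apply Finset.sum_le_sum_of_subset_of_nonneg
  · intro d hd
    rw [mem_filter] at hd ⊢
    exact ⟨hd.1, hPQ _ hd.2⟩
  · intro d _ _; exact wt_nonneg h d

lemma prob_or (h : ∀ j x, 0 ≤ ν j x) (P Q : ℕ → Prop) : prob ν (fun n => P n ∨ Q n) ≤ prob ν P + prob ν Q := by
  classical
  rw [prob_eq (fun n => P n ∨ Q n) ((univ : Finset (Fin L → Fin b)).filter (fun d => P (num b d)) ∪
      univ.filter (fun d => Q (num b d))) (fun d => by simp),
    prob_eq P ((univ : Finset (Fin L → Fin b)).filter (fun d => P (num b d))) (fun d => by simp),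
    prob_eq Q ((univ : Finset (Fin L → Fin b)).filter (fun d => Q (num b d))) (fun d => by simp)]
  have := Finset.sum_union_inter (s₁ := (univ : Finset (Fin L → Fin b)).filter (fun d => P (num b d)))
    (s₂ := univ.filter (fun d => Q (num b d))) (f := wt ν)
  have h2 : 0 ≤ ∑ d ∈ (univ : Finset (Fin L → Fin b)).filter (fun d => P (num b d)) ∩
    univ.filter (fun d => Q (num b d)), wt ν d := Finset.sum_nonneg fun d _ => wt_nonneg h d
  linarith

lemma total (h1 : ∀ j, ∑ x, ν j x = 1) : ∑ d : Fin L → Fin b, wt ν d = 1 := by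
  unfold wt
  have := Finset.prod_univ_sum (fun _ : Fin L => (univ : Finset (Fin b))) (fun j x => ν j x)
  rw [Fintype.piFinset_univ] at this
  rw [← this, Finset.prod_congr rfl (fun j _ => h1 j), Finset.prod_const_one]

lemma prob_le_one (h : ∀ j x, 0 ≤ ν j x) (h1 : ∀ j, ∑ x, ν j x = 1) (P : ℕ → Prop) : prob ν P ≤ 1 := by
  classical
  rw [← total h1]
  unfold prob
  exact Finset.sum_le_sum_of_subset_of_nonneg (filter_subset _ _) fun d _ _ => wt_nonneg h d

/-- small numbers are rare -/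
lemma small {Δ : ℕ} (hΔ : 0 < Δ) {c : ℝ} (hc1 : c ≤ 1) (h : Law b Δ c ν) {m : ℕ} (hm : m ≤ L) :
    prob ν (fun n => n < b ^ m) ≤ (1 - c) ^ (L - m) := by
  classical
  set A : Fin L → Finset (Fin b) := fun j => if m ≤ (j : ℕ) then univ.filter (fun x => (x : ℕ) = 0) else univ
    with hA
  have h1 : prob ν (fun n => n < b ^ m) ≤ ∑ d ∈ Fintype.piFinset A, wt ν d := by
    rw [prob_eq (fun n => n < b ^ m) ((univ : Finset (Fin L → Fin b)).filter (fun d => num b d < b ^ m))
      (fun d => by simp)]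
    apply Finset.sum_le_sum_of_subset_of_nonneg
    · intro d hd
      rw [mem_filter] at hd
      rw [Fintype.mem_piFinset]
      intro j
      simp only [hA]
      split_ifs with hj
      · rw [mem_filter]
        refine ⟨mem_univ _, ?_⟩
        by_contra h0
        have hb : 0 < b := (d j).pos
        have h2 : b ^ (j : ℕ) ≤ num b d := by
          unfold num
          calc b ^ (j : ℕ) = 1 * b ^ (j : ℕ) := (one_mul _).symm
            _ ≤ (d j : ℕ) * b ^ (j : ℕ) := Nat.mul_le_mul_right _ (by omega)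
            _ ≤ _ := Finset.single_le_sum (f := fun j : Fin L => (d j : ℕ) * b ^ (j : ℕ))
                (fun i _ => Nat.zero_le _) (mem_univ j)
        have h3 : b ^ m ≤ b ^ (j : ℕ) := Nat.pow_le_pow_right hb hj
        omega
      · exact mem_univ _
    · intro d _ _; exact wt_nonneg h.nonneg d
  refine h1.trans ?_
  unfold wt
  rw [← Finset.prod_univ_sum A (fun j x => ν j x)]
  have h2 : ∀ j : Fin L, ∑ x ∈ A j, ν j x ≤ (fun i : ℕ => if m ≤ i then 1 - c else 1) (j : ℕ) := by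
    intro j
    simp only [hA]
    split_ifs with hj
    · obtain ⟨e, e', he, h3, h4⟩ := h.two j
      have h5 := h.one j
      rw [← Finset.sum_filter_add_sum_filter_not univ (fun x : Fin b => (x : ℕ) = 0)] at h5
      have h6 : ν j e' ≤ ∑ x ∈ univ.filter (fun x : Fin b => ¬ (x : ℕ) = 0), ν j x :=
        Finset.single_le_sum (f := fun x => ν j x) (fun x _ => h.nonneg j x) (by
          rw [mem_filter]; exact ⟨mem_univ _, by omega⟩)
      linarith
    · exact (h.one j).le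
  refine (Finset.prod_le_prod (fun j _ => Finset.sum_nonneg fun x _ => h.nonneg j x) fun j _ => h2 j).trans ?_
  rw [Fin.prod_univ_eq_prod_range (fun i : ℕ => if m ≤ i then 1 - c else 1) L]
  rw [Finset.prod_ite, Finset.prod_const, Finset.prod_const_one, mul_one]
  have h3 : ((range L).filter (fun i => m ≤ i)).card = L - m := by
    have : (range L).filter (fun i => m ≤ i) = Ico m L := by
      ext i; simp only [mem_filter, mem_range, mem_Ico]; omega
    rw [this, Nat.card_Ico]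
  rw [h3]

end prob

/-- the trajectory of `f n` follows the random model for `k` steps -/
def Follows (f : ℤ[X]) (ε : ℝ) (k n : ℕ) : Prop :=
  0 < f.eval (n : ℤ) ∧ ∀ j ≤ k,
    (3 : ℝ) ^ (-(ε * k)) * (√3 / 2) ^ j * ((f.eval (n : ℤ) : ℤ) : ℝ) ≤ T^[j] (f.eval (n : ℤ)).toNat ∧
    (T^[j] (f.eval (n : ℤ)).toNat : ℝ) ≤ 2 * 3 ^ (ε * k) * (√3 / 2) ^ j * ((f.eval (n : ℤ) : ℤ) : ℝ)

lemma Follows.mono {f : ℤ[X]} {ε ε' : ℝ} {k n : ℕ} (h : Follows f ε k n) (hε : ε ≤ ε') :
    Follows f ε' k n := by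
  refine ⟨h.1, fun j hj => ?_⟩
  obtain ⟨h1, h2⟩ := h.2 j hj
  have h0 : (0 : ℝ) ≤ ((f.eval (n : ℤ) : ℤ) : ℝ) := by exact_mod_cast h.1.le
  have hk : ε * k ≤ ε' * k := mul_le_mul_of_nonneg_right hε (Nat.cast_nonneg _)
  constructor
  · refine le_trans ?_ h1
    have : (3 : ℝ) ^ (-(ε' * k)) ≤ 3 ^ (-(ε * k)) :=
      Real.rpow_le_rpow_of_exponent_le (by norm_num) (by linarith)
    gcongr
  · refine h2.trans ?_
    have : (3 : ℝ) ^ (ε * k) ≤ 3 ^ (ε' * k) :=
      Real.rpow_le_rpow_of_exponent_le (by norm_num) hk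
    gcongr

lemma follows_of {f : ℤ[X]} {ε : ℝ} {k n : ℕ} (hf : (2 : ℤ) ^ k ≤ f.eval (n : ℤ))
    (hb : pv k (f.eval (n : ℤ)).toNat ∉ Bad k (2 * ε * k)) : Follows f ε k n := by
  have hpos : 0 < f.eval (n : ℤ) := lt_of_lt_of_le (by positivity) hf
  refine ⟨hpos, fun j hj => ?_⟩
  obtain ⟨h1, h2⟩ := size hj hb
  obtain ⟨x, hx⟩ : ∃ x, (f.eval (n : ℤ)).toNat = x := ⟨_, rfl⟩
  have hxe : ((f.eval (n : ℤ) : ℤ) : ℝ) = x := by
    have := Int.toNat_of_nonneg hpos.le
    rw [hx] at this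
    exact_mod_cast this.symm
  rw [hxe, hx]
  rw [hx] at h1 h2
  have hxk : (2 : ℝ) ^ k ≤ x := by
    rw [← hxe]; exact_mod_cast hf
  have e1 : Real.exp (2 * ε * k / 2 * Real.log 3) = 3 ^ (ε * k) := by
    rw [Real.rpow_def_of_pos (by norm_num)]; congr 1; ring
  have e2 : Real.exp (-(2 * ε * k / 2 * Real.log 3)) = 3 ^ (-(ε * k)) := by
    rw [Real.rpow_def_of_pos (by norm_num)]; congr 1; ring
  rw [e1] at h2
  rw [e2] at h1
  constructor
  · calc (3 : ℝ) ^ (-(ε * k)) * (√3 / 2) ^ j * x = (√3 / 2) ^ j * 3 ^ (-(ε * k)) * x := by ring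
      _ ≤ _ := h1
  · refine h2.trans ?_
    have h3 : (x : ℝ) + 2 ^ j ≤ 2 * x := by
      have : (2 : ℝ) ^ j ≤ 2 ^ k := pow_le_pow_right₀ (by norm_num) hj
      linarith
    calc (√3 / 2) ^ j * 3 ^ (ε * k) * ((x : ℝ) + 2 ^ j) ≤ (√3 / 2) ^ j * 3 ^ (ε * k) * (2 * x) :=
          mul_le_mul_of_nonneg_left h3 (by positivity)
      _ = 2 * 3 ^ (ε * k) * (√3 / 2) ^ j * x := by ring

/-- a polynomial of positive degree grows at least linearly -/
lemma half_le {f : ℤ[X]} (hd : 1 ≤ f.natDegree) (hlc : 0 < f.leadingCoeff) :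
    ∃ n1 : ℕ, ∀ n : ℕ, n1 ≤ n → (n : ℤ) ≤ 2 * f.eval (n : ℤ) := by
  have key : 1 ≤ (2 * f - X).natDegree ∧ 0 < (2 * f - X).leadingCoeff := by
    have e2 : (2 * f : ℤ[X]) = Polynomial.C 2 * f := by simp
    rcases Nat.lt_or_ge 1 f.natDegree with h | h
    · have hlt : (X : ℤ[X]).degree < (2 * f).degree := by
        rw [e2, Polynomial.degree_C_mul (by norm_num), Polynomial.degree_X]
        rw [Polynomial.degree_eq_natDegree (by intro h0; rw [h0] at hd; simp at hd)]
        exact_mod_cast h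
      have h3 := Polynomial.degree_sub_eq_left_of_degree_lt hlt
      constructor
      · rw [Polynomial.natDegree_eq_of_degree_eq h3, e2, Polynomial.natDegree_C_mul (by norm_num)]
        omega
      · have h4 : (2 * f - X).natDegree = (2 * f).natDegree := Polynomial.natDegree_eq_of_degree_eq h3
        rw [Polynomial.leadingCoeff_sub_of_degree_lt hlt, e2, Polynomial.leadingCoeff_mul, Polynomial.leadingCoeff_C]
        positivity
    · have h1 : f.natDegree = 1 := by omega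
      have hc1 : (2 * f - X).coeff 1 = 2 * f.leadingCoeff - 1 := by
        rw [e2, Polynomial.coeff_sub, Polynomial.coeff_C_mul, Polynomial.coeff_X_one, Polynomial.leadingCoeff, h1]
      have hc0 : 0 < (2 * f - X).coeff 1 := by rw [hc1]; omega
      have h5 : (2 * f - X).natDegree = 1 := by
        apply Polynomial.natDegree_eq_of_le_of_coeff_ne_zero _ hc0.ne'
        refine (Polynomial.natDegree_sub_le _ _).trans ?_
        rw [e2, Polynomial.natDegree_C_mul (by norm_num), h1, Polynomial.natDegree_X, max_self]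
      refine ⟨by omega, ?_⟩
      rw [Polynomial.leadingCoeff, h5]
      exact hc0
  obtain ⟨n1, h⟩ := ev_pos key.1 key.2
  refine ⟨n1, fun n hn => ?_⟩
  have := h n hn
  rw [Polynomial.eval_sub, Polynomial.eval_mul, Polynomial.eval_X] at this
  simp at this
  linarith

/-- **the main estimate** -/
theorem main_est {f : ℤ[X]} (hd : 1 ≤ f.natDegree) (hlc : 0 < f.leadingCoeff) {b : ℕ} (hbo : b % 2 = 1)
    (hb3 : 3 ≤ b) {c : ℝ} (hc : 0 < c) (hc1 : c ≤ 1) {ε : ℝ} (hε : 0 < ε) (hε1 : ε ≤ 1 / 2) :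
    ∃ (r : ℕ) (δ C : ℝ), 4 ≤ r ∧ 0 < δ ∧ 0 < C ∧ ∀ (L Δ : ℕ) (ν : Fin L → Fin b → ℝ), Δ % 2 = 1 →
      Law b Δ c ν → prob ν (fun n => ¬ Follows f ε (L / r) n) ≤ C * Real.exp (-(δ * L)) := by
  classical
  obtain ⟨δ1, C1, hδ1, hC1, hcls⟩ := classes hd hlc (η := 2 * ε) (by positivity) (by linarith)
  obtain ⟨n1, hn1⟩ := half_le hd hlc
  have hl2 : 0 < Real.log 2 := Real.log_pos (by norm_num)
  have hbR : (3 : ℝ) ≤ b := by exact_mod_cast hb3
  have hb0 : (0 : ℝ) < b := by linarith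
  have hb4 : 4 / (b : ℝ) ^ 4 < 1 := by
    rw [div_lt_one (by positivity)]
    calc (4 : ℝ) < 3 ^ 4 := by norm_num
      _ ≤ (b : ℝ) ^ 4 := pow_le_pow_left₀ (by norm_num) hbR 4
  have hb40 : 0 < 4 / (b : ℝ) ^ 4 := by positivity
  set ρ : ℝ := 1 - c * (4 / (b : ℝ) ^ 4) with hρ
  have hρ0 : 0 ≤ ρ := by rw [hρ]; nlinarith
  have hρ1 : ρ < 1 := by rw [hρ]; nlinarith
  obtain ⟨m, hm⟩ := exists_pow_lt_of_lt_one (show 0 < δ1 * Real.log 2 / (2 * b) by positivity) hρ1
  set r : ℕ := max m 4 with hr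
  have hr4 : 4 ≤ r := le_max_right _ _
  have hr0 : (0 : ℝ) < r := by exact_mod_cast (by omega : 0 < r)
  have hρr : b * ρ ^ (2 * r) ≤ δ1 * Real.log 2 / 2 := by
    have h1 : ρ ^ (2 * r) ≤ ρ ^ m := pow_le_pow_of_le_one hρ0 hρ1.le (by
      have := le_max_left m 4
      omega)
    have h2 := h1.trans hm.le
    calc b * ρ ^ (2 * r) ≤ b * (δ1 * Real.log 2 / (2 * b)) := mul_le_mul_of_nonneg_left h2 hb0.le
      _ = δ1 * Real.log 2 / 2 := by field_simp
  set L1 : ℕ := 8 + 2 * n1 with hL1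
  set δ : ℝ := min (c / 2) (δ1 * Real.log 2 / (4 * r)) with hδ
  have hδ0 : 0 < δ := lt_min (by positivity) (by positivity)
  have hδc : δ ≤ c / 2 := min_le_left _ _
  have hδr : δ ≤ δ1 * Real.log 2 / (4 * r) := min_le_right _ _
  set K : ℝ := √(C1 * (r * b)) * Real.exp (δ1 * Real.log 2 / 4) with hK
  have hK0 : 0 ≤ K := by positivity
  refine ⟨r, δ, Real.exp (δ * L1) + 1 + K, hr4, hδ0, by positivity, fun L Δ ν hΔo hlaw => ?_⟩
  have hΔ0 : 0 < Δ := by omega
  have hexp0 : 0 < Real.exp (-(δ * L)) := Real.exp_pos _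
  by_cases hL : L < L1
  · have h1 := prob_le_one hlaw.nonneg hlaw.one (fun n => ¬ Follows f ε (L / r) n)
    have h2 : (1 : ℝ) ≤ Real.exp (δ * L1) * Real.exp (-(δ * L)) := by
      rw [← Real.exp_add]
      apply Real.one_le_exp
      have : (L : ℝ) ≤ L1 := by exact_mod_cast hL.le
      nlinarith
    have h3 : 0 ≤ (1 + K) * Real.exp (-(δ * L)) := by positivity
    calc prob ν (fun n => ¬ Follows f ε (L / r) n) ≤ 1 := h1
      _ ≤ Real.exp (δ * L1) * Real.exp (-(δ * L)) := h2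
      _ ≤ (Real.exp (δ * L1) + 1 + K) * Real.exp (-(δ * L)) := by linarith
  push Not at hL
  obtain ⟨k, hk⟩ : ∃ k, L / r = k := ⟨_, rfl⟩
  rw [hk]
  have hrk : r * k ≤ L := by rw [← hk]; exact Nat.mul_div_le L r
  have hk4 : 4 * k ≤ L := le_trans (Nat.mul_le_mul_right k hr4) hrk
  have hkl : (L : ℝ) / r ≤ k + 1 := by
    rw [div_le_iff₀ hr0]
    have : L < (k + 1) * r := by
      rw [← hk, Nat.add_mul, one_mul]
      exact Nat.lt_div_mul_add (by omega)
    have h5 : (L : ℝ) < ((k + 1 : ℕ) : ℝ) * r := by exact_mod_cast this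
    push_cast at h5
    exact h5.le
  -- the two exceptional events
  have hsub : ∀ n, ¬ Follows f ε k n → (n < b ^ (L / 2)) ∨
      (0 < f.eval (n : ℤ) ∧ pv k (f.eval (n : ℤ)).toNat ∈ Bad k (2 * ε * k)) := by
    intro n hn
    by_contra hcon
    push Not at hcon
    obtain ⟨h1, h2⟩ := hcon
    have hb2 : 2 ≤ b := by omega
    have h3 : n1 ≤ n := by
      have e1 : n1 ≤ 2 ^ n1 := Nat.lt_two_pow_self.le
      have e2 : 2 ^ n1 ≤ 2 ^ (L / 2) := Nat.pow_le_pow_right (by norm_num) (by omega)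
      have e3 : 2 ^ (L / 2) ≤ b ^ (L / 2) := Nat.pow_le_pow_left hb2 _
      omega
    have h4 : 2 ^ (k + 1) ≤ n := by
      have e2 : 2 ^ (k + 1) ≤ 2 ^ (L / 2) := Nat.pow_le_pow_right (by norm_num) (by omega)
      have e3 : 2 ^ (L / 2) ≤ b ^ (L / 2) := Nat.pow_le_pow_left hb2 _
      omega
    have h5 := hn1 n h3
    have h6 : (2 : ℤ) ^ k ≤ f.eval (n : ℤ) := by
      have : (2 : ℤ) ^ (k + 1) ≤ n := by exact_mod_cast h4
      rw [pow_succ] at this
      linarith
    exact hn (follows_of h6 (h2 (lt_of_lt_of_le (by positivity) h6)))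
  have hA : prob ν (fun n => n < b ^ (L / 2)) ≤ Real.exp (-(δ * L)) := by
    refine (small hΔ0 hc1 hlaw (Nat.div_le_self L 2)).trans ?_
    have h1 : (1 - c) ^ (L - L / 2) ≤ (Real.exp (-c)) ^ (L - L / 2) :=
      pow_le_pow_left₀ (by linarith) (by have := Real.add_one_le_exp (-c); linarith) _
    refine h1.trans ?_
    rw [← Real.exp_nat_mul]
    apply Real.exp_le_exp.2
    have h2 : (L : ℝ) / 2 ≤ ((L - L / 2 : ℕ) : ℝ) := by
      have : L ≤ 2 * (L - L / 2) := by omega
      have h3 : (L : ℝ) ≤ 2 * ((L - L / 2 : ℕ) : ℝ) := by exact_mod_cast this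
      linarith
    have h3 : 0 ≤ (L : ℝ) := Nat.cast_nonneg _
    nlinarith
  have hB : prob ν (fun n => 0 < f.eval (n : ℤ) ∧ pv k (f.eval (n : ℤ)).toNat ∈ Bad k (2 * ε * k)) ≤
      K * Real.exp (-(δ * L)) := by
    obtain ⟨Z, hZ, hZm⟩ := hcls k
    have h1 := meas (N := 2 ^ k) (b := b) (Δ := Δ) (L := L) (by omega)
      (Nat.Coprime.pow_right k (Nat.coprime_two_right.2 (Nat.odd_iff.2 hbo))) hΔ0
      (Nat.Coprime.pow_right k (Nat.coprime_two_right.2 (Nat.odd_iff.2 hΔo))) hc.le hc1 hlaw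
      (r := r) (J := k) (by omega) (Nat.pow_le_pow_left (by omega) k) hrk Z
      ((univ : Finset (Fin L → Fin b)).filter (fun d => 0 < f.eval ((num b d : ℕ) : ℤ) ∧
        pv k (f.eval ((num b d : ℕ) : ℤ)).toNat ∈ Bad k (2 * ε * k))) (by
        intro d hd
        rw [mem_filter] at hd
        exact hZm _ hd.2.1 hd.2.2)
    have h2 : (prob ν (fun n => 0 < f.eval (n : ℤ) ∧ pv k (f.eval (n : ℤ)).toNat ∈ Bad k (2 * ε * k))) ^ 2 ≤
        Z.card / ((2 ^ k : ℕ) : ℝ) * (r * (b * (1 + b * ρ ^ (2 * r)) ^ k)) := by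
      rw [prob_eq (fun n => 0 < f.eval (n : ℤ) ∧ pv k (f.eval (n : ℤ)).toNat ∈ Bad k (2 * ε * k))
        ((univ : Finset (Fin L → Fin b)).filter (fun d => 0 < f.eval ((num b d : ℕ) : ℤ) ∧
        pv k (f.eval ((num b d : ℕ) : ℤ)).toNat ∈ Bad k (2 * ε * k))) (fun d => by simp)]
      exact h1
    have h3 : (Z.card : ℝ) / ((2 ^ k : ℕ) : ℝ) ≤ C1 * Real.exp (-(δ1 * Real.log 2 * k)) := by
      push_cast
      rw [div_le_iff₀ (by positivity)]
      refine hZ.trans (le_of_eq ?_)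
      rw [Real.rpow_sub (by positivity), Real.rpow_one]
      have : ((2 : ℝ) ^ k) ^ δ1 = Real.exp (δ1 * Real.log 2 * k) := by
        rw [← Real.rpow_natCast, ← Real.rpow_mul (by norm_num), Real.rpow_def_of_pos (by norm_num)]
        congr 1; ring
      rw [this, Real.exp_neg]
      field_simp
    have h4 : (1 + b * ρ ^ (2 * r)) ^ k ≤ Real.exp (δ1 * Real.log 2 / 2 * k) := by
      have e1 : 1 + b * ρ ^ (2 * r) ≤ Real.exp (δ1 * Real.log 2 / 2) := by
        have := Real.add_one_le_exp (δ1 * Real.log 2 / 2)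
        linarith
      calc (1 + b * ρ ^ (2 * r)) ^ k ≤ (Real.exp (δ1 * Real.log 2 / 2)) ^ k :=
            pow_le_pow_left₀ (by positivity) e1 k
        _ = _ := by rw [← Real.exp_nat_mul]; congr 1; ring
    have h5 : (prob ν (fun n => 0 < f.eval (n : ℤ) ∧ pv k (f.eval (n : ℤ)).toNat ∈ Bad k (2 * ε * k))) ^ 2 ≤
        (K * Real.exp (-(δ * L))) ^ 2 := by
      refine h2.trans ?_
      calc (Z.card : ℝ) / ((2 ^ k : ℕ) : ℝ) * (r * (b * (1 + b * ρ ^ (2 * r)) ^ k))
          ≤ (C1 * Real.exp (-(δ1 * Real.log 2 * k))) * (r * (b * Real.exp (δ1 * Real.log 2 / 2 * k))) := by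
            apply mul_le_mul h3 _ (by positivity) (by positivity)
            gcongr
        _ = C1 * (r * b) * Real.exp (-(δ1 * Real.log 2 / 2 * k)) := by
            have : Real.exp (-(δ1 * Real.log 2 / 2 * k)) =
                Real.exp (-(δ1 * Real.log 2 * k)) * Real.exp (δ1 * Real.log 2 / 2 * k) := by
              rw [← Real.exp_add]; congr 1; ring
            rw [this]; ring
        _ ≤ C1 * (r * b) * Real.exp (δ1 * Real.log 2 / 2 - 2 * (δ * L)) := by
            apply mul_le_mul_of_nonneg_left _ (by positivity)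
            apply Real.exp_le_exp.2
            have e1 : 2 * (δ * L) ≤ 2 * (δ1 * Real.log 2 / (4 * r) * L) := by
              have : (0 : ℝ) ≤ L := Nat.cast_nonneg _
              have := mul_le_mul_of_nonneg_right hδr this
              linarith
            have e2 : 2 * (δ1 * Real.log 2 / (4 * r) * L) = δ1 * Real.log 2 / 2 * (L / r) := by
              field_simp; ring
            have e3 : δ1 * Real.log 2 / 2 * (L / r) ≤ δ1 * Real.log 2 / 2 * (k + 1) :=
              mul_le_mul_of_nonneg_left hkl (by positivity)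
            linarith
        _ = (K * Real.exp (-(δ * L))) ^ 2 := by
            rw [hK, mul_pow, mul_pow, Real.sq_sqrt (by positivity), ← Real.exp_nat_mul, ← Real.exp_nat_mul,
              mul_assoc (C1 * (r * b)), ← Real.exp_add]
            congr 2
            push_cast
            ring
    exact (sq_le_sq₀ (prob_nonneg hlaw.nonneg _) (by positivity)).1 h5
  have h0 : 0 ≤ Real.exp (δ * L1) * Real.exp (-(δ * L)) := by positivity
  calc prob ν (fun n => ¬ Follows f ε k n)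
      ≤ prob ν (fun n => (n < b ^ (L / 2)) ∨
        (0 < f.eval (n : ℤ) ∧ pv k (f.eval (n : ℤ)).toNat ∈ Bad k (2 * ε * k))) := prob_mono hlaw.nonneg hsub
    _ ≤ _ + _ := prob_or hlaw.nonneg _ _
    _ ≤ Real.exp (-(δ * L)) + K * Real.exp (-(δ * L)) := add_le_add hA hB
    _ ≤ (Real.exp (δ * L1) + 1 + K) * Real.exp (-(δ * L)) := by linarith

end Pool.Agent.X17.MD
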